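import Pool.Agent.H98.EX.KDefs

/-!
# The exact constant of the copolymer slope as `α → 1`, upper half: targets, the scales (helper98)

Every `T_X` is a proposition to be proved in a module of its own.
-/

set_option autoImplicit false

open MeasureTheory ProbabilityTheory Filter Topology
open scoped ENNReal
open Pool.Agent.H95 Pool.Agent.H95.Cop Pool.Agent.H96.Cop
open Pool.Agent.H99.CE (BX w1 cq tb Gf Hf Kd ld mx ab eb TT FL EE lg Reg)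

namespace Pool.Agent.H98.EX

/-- SUX: the kernel with the low boxes. -/
def T_SUX : Prop := ∀ (α t δ P η e : ℝ) (M : ℕ), 1 / 2 ≤ α → α ≤ 1 → 0 < t → 0 < δ → 0 ≤ P →
  0 < e → 72 * e * P ≤ η → η ≤ 1 → 72 * e * P ≤ δ → ∀ D : ℕ, 1 ≤ D →
  ld α t δ M D + ENNReal.ofReal (e * P * t) *
    ∑ i ∈ Finset.Ico 1 D, Kd α t η M i * ld α t δ M (D - i) ≤ Kd α t η M D

/-- SHX: the starts. -/
def T_SHX : Prop := ∀ (α t θ s η P e : ℝ) (M L : ℕ), 1 / 2 ≤ α → α ≤ 1 → 0 < t → 0 < θ → θ < 1 →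
  (1 + α) * θ = 1 + s → 0 < s → 0 ≤ η → η ≤ 1 → 0 ≤ P → 0 < e → 4 * e * P ≤ 1 → 1 ≤ M →
  ∑ p ∈ Finset.range L, mx θ (ab (ENNReal.ofReal (e * P * t)) (Kd α t η M) M p) ≤
    ENNReal.ofReal (M * (1 + 4 * e * P + (4 * e * P) ^ θ +
      (e * P * η) ^ θ * (1 + 1 / s) * (M : ℝ) ^ (θ - 1)))

/-- ESX: the ends. -/
def T_ESX : Prop := ∀ (α t θ s η P e : ℝ) (M J q : ℕ), 1 / 2 ≤ α → α ≤ 1 → 0 < t → 0 < θ →
  θ < 1 → (1 + α) * θ = 1 + s → 0 < s → 0 ≤ η → η ≤ 1 → 0 ≤ P → 0 < e → 4 * e * P ≤ 1 → 1 ≤ M →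
  ∑ j ∈ Finset.range J,
    mx θ (eb (ENNReal.ofReal (e * P * t)) (Kd α t η M) (TT M j) (J * M) q) ≤
    ENNReal.ofReal (1 + 4 * e * P + (4 * e * P) ^ θ +
      (e * P * η) ^ θ * (1 + 1 / s) * (M : ℝ) ^ (θ - 1))

/-- CBX: the chains of low boxes only. -/
def T_CBX : Prop := ∀ (α t θ s η P e : ℝ) (M J : ℕ), 1 / 2 ≤ α → α ≤ 1 → 0 < t → 0 < θ → θ < 1 →
  (1 + α) * θ = 1 + s → 0 < s → 0 ≤ η → η ≤ 1 → 0 ≤ P → 0 < e → 4 * e * P ≤ 1 → 1 ≤ M →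
  ∑ j ∈ Finset.range J, (ENNReal.ofReal (e * P * t) *
    ∑ p ∈ TT M j, ab (ENNReal.ofReal (e * P * t)) (Kd α t η M) M p) ^ θ ≤
    ENNReal.ofReal ((e * P * t * M) ^ θ * (4 + 1 / s)) ∧
  ∀ j : ℕ, ENNReal.ofReal (e * P * t) *
    ∑ p ∈ TT M j, ab (ENNReal.ofReal (e * P * t)) (Kd α t η M) M p ≤
    ENNReal.ofReal (2 * (e * P * t * M))

/-- NAX: units. -/
def T_NAX : Prop := ∀ (e α s c δ : ℝ) (k B M : ℕ), 1 / 2 ≤ α → 0 < s → 0 < e → 0 < c → 0 < δ →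
  1 ≤ k → k ≤ B → 1 ≤ M → 0 < ue e α s c δ k B ∧ 0 < tb α c δ B ∧
  ue e α s c δ k (M * B) = M * ue e α s c δ k B ∧
  tb α c δ (M * B) = (M : ℝ) ^ (1 + α) * tb α c δ B ∧
  ue e α s c δ k B = e * tb α c δ B ^ te α s * ((k : ℝ) / B) ^ s ∧
  (1 + α) * te α s = 1 + s ∧ 0 < te α s ∧
  ue e α s c δ k B ≤ e * tb α c δ B ^ te α s

/-- SLX: the mean of the low stretches. -/
def T_SLX : Prop := ∀ (K : PMF ℕ) (ν : Measure ℝ) [IsProbabilityMeasure ν] (e α s c δ P : ℝ)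
  (k B : ℕ), 1 / 2 ≤ α → 0 < s → te α s < 1 → 0 < e → 0 < c → 0 < δ → 1 ≤ k → k ≤ B → 0 ≤ P →
  QTe K ν e α s c δ k B ≤ ENNReal.ofReal P →
  ∫⁻ x, FL (fun b => BX (w1 K B) B b) (ENNReal.ofReal (tb α c δ B)) x ∂(iid ν) ≤
    ENNReal.ofReal (e * P * tb α c δ B)

/-- SMX: the masses of the skeleton. -/
def T_SMX : Prop := ∀ (K : PMF ℕ) (ν : Measure ℝ) [IsProbabilityMeasure ν] (e α s c δ : ℝ)
  (k B : ℕ), 1 / 2 ≤ α → 0 < s → te α s < 1 → 0 < e → 0 < c → 0 < δ → 1 ≤ k → k ≤ B → ∀ n : ℕ,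
  ∑ b ∈ Finset.range n, ∫⁻ x,
    EE (fun b => BX (w1 K B) B b) (ENNReal.ofReal (tb α c δ B)) b x ^ te α s ∂(iid ν) ≤
    ENNReal.ofReal (ue e α s c δ k B) * (QNe K ν e α s c δ k B + QRe K ν e α s c δ k B) ∧
  ∑ b ∈ Finset.range n, ∫⁻ x,
    EE (fun b => BX (w1 K B) B b) (ENNReal.ofReal (tb α c δ B)) b x ^ te α s *
      (ENNReal.ofReal e * lg (tb α c δ B)
        (EE (fun b => BX (w1 K B) B b) (ENNReal.ofReal (tb α c δ B)) b x)) ∂(iid ν) ≤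
    ENNReal.ofReal (ue e α s c δ k B) * QGe K ν e α s c δ k B

/-- R1X: the new stretches over several boxes. -/
def T_R1X : Prop := ∀ (K : PMF ℕ) (ν : Measure ℝ) [IsProbabilityMeasure ν]
  (α s e c δ h P ε X : ℝ) (M n0 k B : ℕ), Pre α s e δ h P ε M X → 0 < c → Reg K α c δ n0 →
  1 ≤ k → k ≤ B → n0 ≤ B → QTe K ν e α s c δ k B ≤ ENNReal.ofReal P →
  QRe K ν e α s c δ k B ≤ ENNReal.ofReal P →
  QRe K ν e α s c δ k (M * B) ≤ ENNReal.ofReal ε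

/-- S1X: the new total moment. -/
def T_S1X : Prop := ∀ (K : PMF ℕ) (ν : Measure ℝ) [IsProbabilityMeasure ν]
  (α s e c δ h P ε X : ℝ) (M n0 k B : ℕ), Pre α s e δ h P ε M X → 0 < c → Reg K α c δ n0 →
  1 ≤ k → k ≤ B → n0 ≤ B → ((B : ℝ) / k) ^ s ≤ X → QTe K ν e α s c δ k B ≤ ENNReal.ofReal P →
  ∀ p : ℝ, 0 ≤ p → p ≤ 2 * P →
  QNe K ν e α s c δ k B + QRe K ν e α s c δ k B ≤ ENNReal.ofReal p →
  QTe K ν e α s c δ k (M * B) ≤ ENNReal.ofReal ((1 + ε) ^ 2 * p / (1 - (1 + ε) * h * p) + ε)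

/-- S2X: the new logarithmic moment. -/
def T_S2X : Prop := ∀ (K : PMF ℕ) (ν : Measure ℝ) [IsProbabilityMeasure ν]
  (α s e c δ h P ε X : ℝ) (M n0 k B : ℕ), Pre α s e δ h P ε M X → 0 < c → Reg K α c δ n0 →
  1 ≤ k → k ≤ B → n0 ≤ B → ((B : ℝ) / k) ^ s ≤ X → QTe K ν e α s c δ k B ≤ ENNReal.ofReal P →
  ∀ p g : ℝ, 0 ≤ p → p ≤ 2 * P → 0 ≤ g →
  QNe K ν e α s c δ k B + QRe K ν e α s c δ k B ≤ ENNReal.ofReal p →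
  QGe K ν e α s c δ k B ≤ ENNReal.ofReal g →
  QGe K ν e α s c δ k (M * B) + ENNReal.ofReal ((1 + α) * h) * QNe K ν e α s c δ k (M * B) ≤
    ENNReal.ofReal ((1 + ε) ^ 2 * g / (1 - (1 + ε) * h * p) ^ 2 + 2 * ε)

/-- SCX: all scales. -/
def T_SCX : Prop := ∀ δ0 : ℝ, 0 < δ0 → δ0 ≤ 1 / 2 → ∃ C κ : ℝ, 1 ≤ C ∧ 0 < κ ∧
  ∀ (K : PMF ℕ) (ν : Measure ℝ) [IsProbabilityMeasure ν] (α s e c δ h Nb ε X : ℝ)
  (M J n0 k B : ℕ), Pre α s e δ h (C * Nb) ε M X → 1 ≤ Nb → h * Nb ≤ κ → J * ε * Nb ≤ κ →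
  0 < c → Reg K α c δ n0 → 1 ≤ k → k ≤ B → n0 ≤ B → (((M ^ J * B : ℕ) : ℝ) / k) ^ s ≤ X →
  QTe K ν e α s c δ k B ≤ ENNReal.ofReal Nb → QRe K ν e α s c δ k B ≤ ENNReal.ofReal Nb →
  QGe K ν e α s c δ k B ≤ ENNReal.ofReal ((1 + α) * (1 / 2 - δ0)) →
  QTe K ν e α s c δ k (M ^ J * B) ≤ ENNReal.ofReal (C * Nb)

/-- FCX: the criterion. -/
def T_FCX : Prop := ∀ K : PMF ℕ, K 0 = 0 → ∀ (ν : Measure ℝ) [IsProbabilityMeasure ν]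
  (e α s c δ P : ℝ) (n0 k B : ℕ), 1 / 2 ≤ α → α ≤ 1 → 0 < s → te α s < 1 → 0 < e → 0 < c →
  0 < δ → Reg K α c δ n0 → 1 ≤ k → k ≤ B → n0 ≤ B → 0 ≤ P →
  QTe K ν e α s c δ k B ≤ ENNReal.ofReal P →
  4 * (e * P * ((k : ℝ) / B) ^ s * (3 + 1 / s)) ≤ 1 → Mo ν (te α s) ≤ 1 →
  ∃ C : ℝ, 0 ≤ C ∧ ∀ N : ℕ, ∫⁻ x, Wn K N x ^ te α s ∂(iid ν) ≤ ENNReal.ofReal C

end Pool.Agent.H98.EX
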