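import Pool.Agent.H98.EX.PDefs

/-!
# The exact constant of the copolymer slope as `α → 1`: targets, neutral stretches (helper98)

Every `T_X` is a proposition to be proved in a module of its own.
-/

set_option autoImplicit false

open MeasureTheory ProbabilityTheory Filter Topology
open scoped ENNReal
open Pool.Agent.H95 Pool.Agent.H95.Cop
open Pool.Agent.H55.CG (Mo)
open Pool.Agent.H96.Cop (pk)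
open Pool.Agent.H99.CE (PF BX w0)
open Pool.Agent.H98.SLN (RG TS kt VB)

namespace Pool.Agent.H98.EX

/-- PF3: decomposition into three parts. -/
def T_PF3 : Prop := ∀ (w : ℕ → (ℕ → ℝ) → ℝ≥0∞) (k : ℕ), (∀ n x, k < n → w n x = 0) →
  ∀ p q s : ℕ, 1 ≤ p → p + k ≤ q + 1 → q < s → ∀ x : ℕ → ℝ,
  PF w s x = ∑ i ∈ Finset.Ico p (p + k), ∑ j ∈ Finset.Icc i q,
    GP w p i x * (PF w (j - i) (shift i x) * GQ w (q - j) (s - j) (shift j x))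

/-- NCD: the same for the stretches between cells. -/
def T_NCD : Prop := ∀ (w : ℕ → (ℕ → ℝ) → ℝ≥0∞) (b : (ℕ → ℝ) → ℕ → ℕ → ℝ≥0∞) (k R d : ℕ),
  1 ≤ k → 2 ≤ R → 2 * R ≤ d → (∀ n x, k < n → w n x = 0) →
  (∀ x t a a', b x (a + t) (a' + t) = b (shift t x) a a') → ∀ x : ℕ → ℝ,
  NC w b k d x = ∑ i ∈ Finset.Ico (R * k) ((R + 1) * k), ∑ j ∈ Finset.Icc i ((d + 1 - R) * k),
    AP w b k R i x * (PF w (j - i) (shift i x) *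
      BQ w b k ((d + 1 - R) * k - j) ((d + 1) * k - j) (shift j x))

/-- PCO: the linear part of the neutral stretches. -/
def T_PCO : Prop := ∀ (K : PMF ℕ) (k : ℕ),
  (∀ s x, PF (w0 K k k) s x = ENNReal.ofReal (Real.exp (H x 0 s / 2)) * PF (wc K k) s x) ∧
  ∀ d x, BX (w0 K k k) k d x =
    ENNReal.ofReal (Real.exp (H x 0 ((d + 1) * k) / 2)) * NC (wc K k) be k d x

/-- EGP: the tilted law. -/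
def T_EGP : Prop := ∀ (ν : Measure ℝ) (k : ℕ) (ϑ ε τ U θ : ℝ), EG ν k ϑ ε τ U → 3 ≤ U →
  |θ| ≤ 1 → 0 ≤ τ → EP (ν.tilted fun t => θ / 2 * t) k ϑ (θ - 1 / 2 - ε) (2 * τ)

/-- EXB: one excursion. -/
def T_EXB : Prop := ∀ (ϖ : Measure ℝ) (k : ℕ) (ϑ σ τ ω : ℝ), PB ϖ k ϑ σ τ ω → ∀ n : ℕ, 1 ≤ n →
  n ≤ k → Integrable (fun x : ℕ → ℝ => Real.cosh (H x 0 n / 2)) (iid ϖ) ∧
  Integrable (fun x : ℕ → ℝ => Real.cosh (H x 0 n / 2) ^ 2) (iid ϖ) ∧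
  Integrable (fun x : ℕ → ℝ => Real.exp (-(Sy k ϑ x 0 n / 4)) * Real.cosh (H x 0 n / 2)) (iid ϖ) ∧
  Integrable (fun x : ℕ → ℝ => Real.exp (Sy k ϑ x 0 n / 4) * Real.cosh (H x 0 n / 2)) (iid ϖ) ∧
  Integrable (fun x : ℕ → ℝ => Sy k ϑ x 0 n * Real.cosh (H x 0 n / 2)) (iid ϖ) ∧
  Real.exp (ϑ * n / k / 2 - τ * n / k) ≤ ∫ x : ℕ → ℝ, Real.cosh (H x 0 n / 2) ∂(iid ϖ) ∧
  ∫ x : ℕ → ℝ, Real.cosh (H x 0 n / 2) ∂(iid ϖ) ≤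
    Real.exp (ϑ * n / k / 2 + τ * n / k) * (1 + (ϑ / k * n) ^ 2) ∧
  ∫ x : ℕ → ℝ, Real.cosh (H x 0 n / 2) ^ 2 ∂(iid ϖ) ≤
    (Real.exp (ϑ * n / k / 2 + τ * n / k) * (1 + (ϑ / k * n) ^ 2)) ^ 2 ∧
  ∫ x : ℕ → ℝ, Real.exp (-(Sy k ϑ x 0 n / 4)) * Real.cosh (H x 0 n / 2) ∂(iid ϖ) ≤
    Real.exp (ϑ * n / k / 2 + τ * n / k) * (1 + (ϑ / k * n) ^ 2) ∧
  ∫ x : ℕ → ℝ, Real.exp (Sy k ϑ x 0 n / 4) * Real.cosh (H x 0 n / 2) ∂(iid ϖ) ≤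
    Real.exp (2 * (ϑ * n / k) + τ * n / k) ∧
  ∫ x : ℕ → ℝ, Sy k ϑ x 0 n * Real.cosh (H x 0 n / 2) ∂(iid ϖ) ≤
    ad ϑ ω * (n / k) * ∫ x : ℕ → ℝ, Real.cosh (H x 0 n / 2) ∂(iid ϖ)

/-- MPF: moments of the sums over paths. -/
def T_MPF : Prop := ∀ (K : PMF ℕ) (ϖ : Measure ℝ) (k : ℕ) (ϑ σ τ ω : ℝ), PB ϖ k ϑ σ τ ω →
  ∀ s : ℕ, ∫⁻ x, PF (wc K k) s x ∂(iid ϖ) ≤ ENNReal.ofReal (MH K k ϑ τ s) ∧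
  ∫⁻ x, ENNReal.ofReal (Real.exp (-(Sy k ϑ x 0 s / 4))) * PF (wc K k) s x ∂(iid ϖ) ≤
    ENNReal.ofReal (MH K k ϑ τ s) ∧
  ∫⁻ x, ENNReal.ofReal (Real.exp (Sy k ϑ x 0 s / 4)) * PF (wc K k) s x ∂(iid ϖ) ≤
    ENNReal.ofReal (Real.exp (2 * ϑ * s / k) * MH K k ϑ τ s) ∧
  ∫⁻ x, ENNReal.ofReal (Sy k ϑ x 0 s) * PF (wc K k) s x ∂(iid ϖ) ≤
    ENNReal.ofReal ((ad ϑ ω * (s / k) + 4) * MH K k ϑ τ s)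

/-- LLC: closure properties of `LL`. -/
def T_LLC : Prop := (∀ (P : Measure (ℕ → ℝ)) [IsProbabilityMeasure P] (c : ℝ) (n : ℕ)
    (X : ℕ → (ℕ → ℝ) → ℝ≥0∞), (∀ i, Measurable (X i)) → (∀ i < n, LL P c (X i)) →
    LL P c fun x => ∑ i ∈ Finset.range n, X i x) ∧
  (∀ (ϖ : Measure ℝ) [IsProbabilityMeasure ϖ] (B : ℕ) (f g : (ℕ → ℝ) → ℝ≥0∞) (c c' : ℝ),
    Measurable f → DepLt B f → Measurable g → LL (iid ϖ) c f → LL (iid ϖ) c' g →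
    LL (iid ϖ) (c + c') fun x => f x * g (shift B x)) ∧
  (∀ (P : Measure (ℕ → ℝ)) (c c' : ℝ) (X : (ℕ → ℝ) → ℝ≥0∞), c ≤ c' → LL P c X → LL P c' X) ∧
  ∀ (P : Measure (ℕ → ℝ)) (c : ℝ) (a : ℝ≥0∞) (X : (ℕ → ℝ) → ℝ≥0∞), a ≠ ∞ → Measurable X →
    LL P c X → LL P c fun x => a * X x

/-- LLP: the sums over paths. -/
def T_LLP : Prop := ∀ (K : PMF ℕ) (ϖ : Measure ℝ) (k : ℕ) (ϑ σ τ ω : ℝ), PB ϖ k ϑ σ τ ω →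
  (∀ n : ℕ, 1 ≤ n → LL (iid ϖ) ((ϑ ^ 2 + 2 * τ) * n / k) (wc K k n)) ∧
  ∀ s : ℕ, LL (iid ϖ) ((ϑ ^ 2 + 2 * τ) * s / k) (PF (wc K k) s)

/-- VAB: a variance bound. -/
def T_VAB : Prop := ∀ (P : Measure (ℕ → ℝ)) [IsProbabilityMeasure P] (c : ℝ)
  (A f : (ℕ → ℝ) → ℝ≥0∞), 0 ≤ c → Measurable A → Measurable f → (∀ x, f x ≤ 1) → LL P c A →
  ∫⁻ x, A x ∂P ≠ ∞ → ∫⁻ x, f x * A x ∂P ≤
    (∫⁻ x, f x ∂P + ENNReal.ofReal (Real.sqrt (Real.exp (2 * c) - 1)) *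
      (∫⁻ x, f x ^ (2 : ℝ) ∂P) ^ (1 / 2 : ℝ)) * ∫⁻ x, A x ∂P

/-- ABM: the end parts. -/
def T_ABM : Prop := ∀ (K : PMF ℕ) (ϖ : Measure ℝ) (k R : ℕ) (ϑ σ τ ω : ℝ), PB ϖ k ϑ σ τ ω →
  2 ≤ R → (∀ i : ℕ, R * k ≤ i → i < (R + 1) * k →
    Measurable (AP (wc K k) be k R i) ∧ DepLt i (AP (wc K k) be k R i) ∧
    LL (iid ϖ) (ce ϑ τ R) (AP (wc K k) be k R i) ∧
    ∫⁻ x, AP (wc K k) be k R i x ∂(iid ϖ) ≤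
      ENNReal.ofReal (Real.exp ((ϑ / 2 + τ) * i / k + ϑ)) * AP (wk K k ϑ) bo k R i 0 ∧
    ∫⁻ x, ENNReal.ofReal |Sy k ϑ x 0 i| * AP (wc K k) be k R i x ∂(iid ϖ) ≤
      ENNReal.ofReal (Real.exp (2 * R + 6)) *
        (ENNReal.ofReal (Real.exp ((ϑ / 2 + τ) * i / k + ϑ)) * AP (wk K k ϑ) bo k R i 0)) ∧
  ∀ g : ℕ, Measurable (BQ (wc K k) be k g (g + R * k)) ∧
    LL (iid ϖ) (ce ϑ τ R) (BQ (wc K k) be k g (g + R * k)) ∧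
    ∫⁻ x, BQ (wc K k) be k g (g + R * k) x ∂(iid ϖ) ≤
      ENNReal.ofReal (Real.exp ((ϑ / 2 + τ) * ((g + R * k : ℕ) : ℝ) / k + ϑ)) *
        BQ (wk K k ϑ) bo k g (g + R * k) 0 ∧
    ∫⁻ x, ENNReal.ofReal |Sy k ϑ x 0 (g + R * k)| * BQ (wc K k) be k g (g + R * k) x ∂(iid ϖ) ≤
      ENNReal.ofReal (Real.exp (2 * R + 6)) *
        (ENNReal.ofReal (Real.exp ((ϑ / 2 + τ) * ((g + R * k : ℕ) : ℝ) / k + ϑ)) *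
          BQ (wk K k ϑ) bo k g (g + R * k) 0)

/-- MSX: the neutral mass. -/
def T_MSX : Prop := ∀ (K : PMF ℕ) (α c δ r ϑ : ℝ) (k q : ℕ), RX K α c δ r k q → 0 < ϑ →
  ϑ ≤ 1 / 64 → r ≤ ϑ / 8 → δ ≤ ϑ / 16 → 16 ≤ ϑ * k → ∀ b : ℕ,
  VB K k (ϑ / k) b ≤ Real.exp (64 * δ * (b + 1)) * ((1 + ϑ) * (k : ℝ) ^ 2 / TS K k)

/-- PE0: the stretches. -/
def T_PE0 : Prop := ∀ (K : PMF ℕ) (ϖ : Measure ℝ) (α c δ r ϑ σ τ ω : ℝ) (k q : ℕ),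
  PA K ϖ α c δ r ϑ σ τ ω k q → ∀ d : ℕ,
  ∫⁻ x, NC (wc K k) be k d x ∂(iid ϖ) ≤ ENNReal.ofReal (MD K k ϑ τ δ d) ∧
  ∫⁻ x, ENNReal.ofReal (Sy k ϑ x 0 ((d + 1) * k)) * NC (wc K k) be k d x ∂(iid ϖ) ≤
    ENNReal.ofReal (MD K k ϑ τ δ d * (ad ϑ ω * (d + 1) + 32))

/-- PE1: the stretches, with functions of the cells near their ends. -/
def T_PE1 : Prop := ∀ (K : PMF ℕ) (ϖ : Measure ℝ) (α c δ r ϑ σ τ ω : ℝ) (k q : ℕ),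
  PA K ϖ α c δ r ϑ σ τ ω k q → ∀ R d : ℕ, 2 ≤ R → 2 * R ≤ d → ∀ f g : (ℕ → ℝ) → ℝ≥0∞,
  Measurable f → DepLt (R * k) f → (∀ x, f x ≤ 1) →
  Measurable g → DepLt (R * k) g → (∀ x, g x ≤ 1) →
  ∫⁻ x, f x * g (shift ((d + 1 - R) * k) x) *
    (ENNReal.ofReal (Sy k ϑ x 0 ((d + 1) * k)) * NC (wc K k) be k d x) ∂(iid ϖ) ≤
  ENNReal.ofReal (MD K k ϑ τ δ d) *
    ((∫⁻ x, f x ∂(iid ϖ) + ENNReal.ofReal (Real.sqrt (Real.exp (2 * ce ϑ τ R) - 1)) *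
        (∫⁻ x, f x ^ (2 : ℝ) ∂(iid ϖ)) ^ (1 / 2 : ℝ)) *
      (∫⁻ x, g x ∂(iid ϖ) + ENNReal.ofReal (Real.sqrt (Real.exp (2 * ce ϑ τ R) - 1)) *
        (∫⁻ x, g x ^ (2 : ℝ) ∂(iid ϖ)) ^ (1 / 2 : ℝ)) *
      ENNReal.ofReal (ad ϑ ω * (d + 1) + 4) + ENNReal.ofReal (Real.exp (2 * R + 8)))

/-- PC1: the same without the sum over paths. -/
def T_PC1 : Prop := ∀ (ϖ : Measure ℝ) (k : ℕ) (ϑ σ τ ω : ℝ), PB ϖ k ϑ σ τ ω →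
  (∀ R d : ℕ, 2 ≤ R → 2 * R ≤ d → ∀ f g : (ℕ → ℝ) → ℝ≥0∞,
    Measurable f → DepLt (R * k) f → (∀ x, f x ≤ 1) →
    Measurable g → DepLt (R * k) g → (∀ x, g x ≤ 1) →
    ∫⁻ x, f x * g (shift ((d + 1 - R) * k) x) *
      ENNReal.ofReal (Sy k ϑ x 0 ((d + 1) * k)) ∂(iid ϖ) ≤
    (∫⁻ x, f x ∂(iid ϖ)) * (∫⁻ x, g x ∂(iid ϖ)) * ENNReal.ofReal (ad ϑ ω * (d + 1) + 4) +
      ENNReal.ofReal (Real.exp (2 * R + 8))) ∧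
  ∀ d : ℕ, ∫⁻ x, ENNReal.ofReal (Sy k ϑ x 0 ((d + 1) * k)) ∂(iid ϖ) ≤
    ENNReal.ofReal (ad ϑ ω * (d + 1) + 4)

end Pool.Agent.H98.EX
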