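import Pool.Agent.H98.EX.WDefs

/-!
# The exact constant of the copolymer slope as `α → 1`: targets, the random walk (helper98)

Every `T_X` is a proposition to be proved in a module of its own.
-/

set_option autoImplicit false

open MeasureTheory ProbabilityTheory Filter Topology
open scoped ENNReal
open Pool.Agent.H95 Pool.Agent.H95.Cop
open Pool.Agent.H55.CG (Mo)

namespace Pool.Agent.H98.EX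

/-- REV: reversal. -/
def T_REV : Prop := ∀ (ϱ : Measure ℝ) [IsProbabilityMeasure ϱ] (n : ℕ),
  MeasurePreserving (rv n) (iid ϱ) (iid ϱ)

/-- YSM: the increments are independent with the law `rl`. -/
def T_YSM : Prop := ∀ (ν : Measure ℝ) [IsProbabilityMeasure ν],
  (∀ t : ℝ, Integrable (fun z => Real.exp (t * z)) ν) → ∀ (k : ℕ) (ϑ : ℝ), 1 ≤ k →
  MeasurePreserving (yk k ϑ) (iid ν) (iid (rl ν k ϑ)) ∧ IsProbabilityMeasure (rl ν k ϑ) ∧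
  (∀ t : ℝ, Integrable (fun z => Real.exp (t * z)) (rl ν k ϑ)) ∧
  (∀ u : ℝ, Mo (rl ν k ϑ) u = Real.exp (u * ϑ / 2) * Mo ν (u / 2) ^ k) ∧
  ∀ u : ℝ, (rl ν k ϑ).tilted (fun t => u * t) = rl (ν.tilted fun t => u / 2 * t) k ϑ

/-- WBA: basic properties. -/
def T_WBA : Prop := ∀ (ρ : Measure ℝ) [IsProbabilityMeasure ρ],
  (∀ t : ℝ, Integrable (fun z => Real.exp (t * z)) ρ) → ∀ θ p : ℝ, 0 ≤ p →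
  (∀ a b, 0 ≤ QQ ρ θ p a b ∧ QQ ρ θ p a b ≤ 1) ∧
  (∀ a a' b b', a ≤ a' → b ≤ b' → QQ ρ θ p a' b' ≤ QQ ρ θ p a b) ∧
  (∀ n, 0 < hh ρ n p ∧ hh ρ n p ≤ 1) ∧ (∀ n n', n ≤ n' → hh ρ n' p ≤ hh ρ n p) ∧
  (∀ n p', p ≤ p' → hh ρ n p' ≤ hh ρ n p) ∧
  ∀ a b, QQ ρ θ p a b ≤ hh (ρ.tilted fun t => θ * t) a p

/-- TEL: the telescoping identity. -/
def T_TEL : Prop := ∀ (ρ : Measure ℝ) [IsProbabilityMeasure ρ],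
  (∀ t : ℝ, Integrable (fun z => Real.exp (t * z)) ρ) → ∀ (θ : ℝ) (n : ℕ), 0 < θ → θ < 1 →
  ∑ j ∈ Finset.range (n + 1), Mo ρ θ ^ j * QQ ρ θ (1 - θ) j (n - j) ≤
    1 + ∑ k ∈ Finset.range n, θ * Mo ρ θ ^ (k + 1) *
      (Mo (ρ.tilted fun t => θ * t) (1 - θ) * hh (ρ.tilted fun t => θ * t) k (1 - θ)) ∧
  1 + ∑ k ∈ Finset.range n, θ * Mo ρ θ ^ (k + 1) *
      hh (ρ.tilted fun t => θ * t) (k + 1) (1 - θ) ≤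
    ∑ j ∈ Finset.range (n + 1), Mo ρ θ ^ j * QQ ρ θ (1 - θ) j (n - j)

/-- QCV: the two-sided sums converge. -/
def T_QCV : Prop := ∀ (ρ : Measure ℝ) [IsProbabilityMeasure ρ],
  (∀ t : ℝ, Integrable (fun z => Real.exp (t * z)) ρ) → ∀ (θ p u : ℝ) (a a' b b' : ℕ), 0 ≤ p →
  0 < u → u ≤ 1 → a ≤ a' → b ≤ b' →
  QQ ρ θ p a b ≤ QQ ρ θ p a' b' + max 1 p *
    (∑ i ∈ Finset.Ico a a', Mo (ρ.tilted fun t => θ * t) (-u) ^ (i + 1) +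
      ∑ i ∈ Finset.Ico b b', Mo ρ u ^ (i + 1))

/-- HFR: the recursion of the negative moments. -/
def T_HFR : Prop := ∀ (ϱ : Measure ℝ) [IsProbabilityMeasure ϱ],
  (∀ t : ℝ, Integrable (fun z => Real.exp (t * z)) ϱ) → ∀ (q : ℝ) (n : ℕ), 0 < q →
  q * hh ϱ (n + 1) (q + 1) ≤ Mo ϱ q * hh ϱ n q - hh ϱ (n + 1) q ∧
  Mo ϱ q * hh ϱ n q - hh ϱ (n + 1) q ≤ q * (Mo ϱ (q + 1) * hh ϱ n (q + 1))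

/-- HF0: the recursion at `0`. -/
def T_HF0 : Prop := ∀ (ϱ : Measure ℝ) [IsProbabilityMeasure ϱ],
  (∀ t : ℝ, Integrable (fun z => Real.exp (t * z)) ϱ) → ∀ (u : ℝ) (n : ℕ), 0 < u → u ≤ 1 →
  hh ϱ (n + 1) 1 ≤ (∫ z, z ∂ϱ) + Mo ϱ (-u) ^ (n + 1) / u ∧
  (∫ z, z ∂ϱ) ≤ Mo ϱ 1 * hh ϱ n 1

/-- HFD: the speed of convergence. -/
def T_HFD : Prop := ∀ (ϱ : Measure ℝ) [IsProbabilityMeasure ϱ],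
  (∀ t : ℝ, Integrable (fun z => Real.exp (t * z)) ϱ) → ∀ (q u : ℝ) (n : ℕ), 0 ≤ q → 0 < u →
  u ≤ 1 → hh ϱ n q - hh ϱ (n + 1) q ≤ max 1 q * Mo ϱ (-u) ^ (n + 1)

/-- HFC: logarithmic convexity. -/
def T_HFC : Prop := ∀ (ϱ : Measure ℝ) [IsProbabilityMeasure ϱ] (n : ℕ) (p1 p2 w : ℝ), 0 ≤ p1 →
  0 ≤ p2 → 0 ≤ w → w ≤ 1 →
  hh ϱ n (w * p1 + (1 - w) * p2) ≤ hh ϱ n p1 ^ w * hh ϱ n p2 ^ (1 - w)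

/-- HUP: the moment of order `1/2` from above. -/
def T_HUP : Prop := ∀ η : ℝ, 0 < η → ∃ (Q : ℕ) (ϑ0 : ℝ), 0 < ϑ0 ∧ ∀ ϑ : ℝ, 0 < ϑ → ϑ < ϑ0 →
  ∃ (τ : ℝ) (n1 : ℕ), 0 < τ ∧ ∀ (ϱ : Measure ℝ) [IsProbabilityMeasure ϱ],
  (∀ t : ℝ, Integrable (fun z => Real.exp (t * z)) ϱ) →
  (∀ q : ℝ, -1 ≤ q → q ≤ Q → Real.exp (ϑ * (q / 4 + q ^ 2 / 2) - τ) ≤ Mo ϱ q ∧
    Mo ϱ q ≤ Real.exp (ϑ * (q / 4 + q ^ 2 / 2) + τ)) →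
  ∀ n : ℕ, n1 ≤ n → hh ϱ n (1 / 2) ≤ (1 + η) * Real.sqrt (ϑ / (2 * Real.pi))

/-- HLO: the moment of order `1/2` from below. -/
def T_HLO : Prop := ∀ η : ℝ, 0 < η → ∃ (Q : ℕ) (ϑ0 : ℝ), 0 < ϑ0 ∧ ∀ ϑ : ℝ, 0 < ϑ → ϑ < ϑ0 →
  ∃ τ : ℝ, 0 < τ ∧ ∀ (ϱ : Measure ℝ) [IsProbabilityMeasure ϱ],
  (∀ t : ℝ, Integrable (fun z => Real.exp (t * z)) ϱ) →
  (∀ q : ℝ, -1 ≤ q → q ≤ Q → Real.exp (ϑ * (q / 4 + q ^ 2 / 2) - τ) ≤ Mo ϱ q ∧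
    Mo ϱ q ≤ Real.exp (ϑ * (q / 4 + q ^ 2 / 2) + τ)) →
  ∀ n : ℕ, (1 - η) * Real.sqrt (ϑ / (2 * Real.pi)) ≤ hh ϱ n (1 / 2)

/-- QQB: the constant of the two-sided sums. -/
def T_QQB : Prop := ∀ η : ℝ, 0 < η → ∃ (Q : ℕ) (ϑ0 : ℝ), 0 < ϑ0 ∧ ∀ ϑ : ℝ, 0 < ϑ → ϑ < ϑ0 →
  ∀ R : ℕ, ϑ ^ (-(3 / 2) : ℝ) ≤ R → ∃ τ : ℝ, 0 < τ ∧ ∀ (ρ : Measure ℝ) [IsProbabilityMeasure ρ],
  (∀ t : ℝ, Integrable (fun z => Real.exp (t * z)) ρ) →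
  (∀ q : ℝ, -1 ≤ q → q ≤ Q → Real.exp (ϑ * (q ^ 2 / 2 - q / 4) - τ) ≤ Mo ρ q ∧
    Mo ρ q ≤ Real.exp (ϑ * (q ^ 2 / 2 - q / 4) + τ)) →
  ∀ θ : ℝ, |θ - 1 / 2| ≤ τ →
  (1 - η) * Real.sqrt (ϑ / (8 * Real.pi)) ≤ QQ ρ θ (1 - θ) R R ∧
  QQ ρ θ (1 - θ) R R ≤ (1 + η) * Real.sqrt (ϑ / (8 * Real.pi)) ∧
  QQ ρ θ (2 - 2 * θ) R R ≤ ϑ

end Pool.Agent.H98.EX
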