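import Pool.Agent.H98.EX.BDefs
import Pool.Agent.H98.EX.KTargets
import Pool.Agent.H98.EX.PTargets
import Pool.Agent.H98.EX.WTargets

/-!
# The exact constant of the copolymer slope as `α → 1`: targets, base and theorems of the upper half
(helper98)

Every `T_X` is a proposition to be proved in a module of its own.
-/

set_option autoImplicit false

open MeasureTheory ProbabilityTheory Filter Topology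
open scoped ENNReal
open Pool.Agent.H95 Pool.Agent.H95.Cop
open Pool.Agent.H55.CG (Mo)
open Pool.Agent.H96.Cop (ex pk Wn chargeLaw)
open Pool.Agent.H99.CE (NX w0 w1 BX CT TT Cc Gf lg tb Reg)
open Pool.Agent.H98.SLN (RG gl TS)

namespace Pool.Agent.H98.EX

/-! ## A. The chains with long excursions of two kinds -/

/-- UD2: decomposition at the first excursion of more than `k` sites. -/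
def T_UD2 : Prop := ∀ (K : PMF ℕ) (k B : ℕ) (ga gb : ℕ → ℝ≥0∞), 1 ≤ k → k ≤ B →
  (∀ D m : ℕ, 1 ≤ D → k < m → m ≤ B → (D - 1) * k < m → m < (D + 1) * k →
    pk K m * 2⁻¹ ≤ ga D) →
  (∀ D m : ℕ, 1 ≤ D → k < m → (D - 1) * k < m → m < (D + 1) * k → pk K m * 2⁻¹ ≤ gb D) →
  ∀ (p : Bool) (j : ℕ) (x : ℕ → ℝ), NX (w1 K B) k p false j x ≤
    NX (w0 K k k) k p false j x +
    ∑ i ∈ Finset.range (j + 1), ∑ D ∈ Finset.Icc 1 j, if i + D ≤ j then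
      (NX (w0 K k k) k p false i x *
        (ga D * NX (w1 K B) k false false (j - i - D) (shift ((i + D) * k) x)) +
      NX (w0 K k k) k p true i x *
        (gb D * ex ((i + 1) * k) ((i + D) * k) x *
          NX (w1 K B) k true false (j - i - D) (shift ((i + D) * k) x)))
      else 0

/-- UM2: the renewal inequality for the moments. -/
def T_UM2 : Prop := ∀ (K : PMF ℕ) (ν : Measure ℝ) [IsProbabilityMeasure ν] (k B : ℕ)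
  (ga gb : ℕ → ℝ≥0∞) (θ : ℝ) (fh lh : ℝ≥0∞), 1 ≤ k → k ≤ B → 0 < θ → θ ≤ 1 →
  (∀ D m : ℕ, 1 ≤ D → k < m → m ≤ B → (D - 1) * k < m → m < (D + 1) * k →
    pk K m * 2⁻¹ ≤ ga D) →
  (∀ D m : ℕ, 1 ≤ D → k < m → (D - 1) * k < m → m < (D + 1) * k → pk K m * 2⁻¹ ≤ gb D) →
  (∀ n, ∑ i ∈ Finset.range n, fn K k ν θ i ≤ fh) →
  (∀ n, ∑ D ∈ Finset.Icc 1 n,
    (ga D ^ θ + gb D ^ θ * ∫⁻ x, ex 0 ((D - 1) * k) x ^ θ ∂(iid ν)) ≤ lh) →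
  fh * lh ≤ 4⁻¹ → (∀ n, ∑ e ∈ Finset.range n, yn K k B ν θ e ≤ 2 * fh) ∧
  ∀ f1 l1 : ℝ≥0∞, (∀ n, ∑ i ∈ Finset.range n, (i : ℝ≥0∞) * fn K k ν θ i ≤ f1) →
    (∀ n, ∑ D ∈ Finset.Icc (1 : ℕ) n, (D : ℝ≥0∞) *
      (ga D ^ θ + gb D ^ θ * ∫⁻ x, ex 0 ((D - 1) * k) x ^ θ ∂(iid ν)) ≤ l1) →
    ∀ n, ∑ e ∈ Finset.range n, (e : ℝ≥0∞) * yn K k B ν θ e ≤ 2 * (f1 + fh ^ 2 * l1)

/-- QB1: from cells to boxes. -/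
def T_QB1 : Prop := ∀ (K : PMF ℕ) (ν : Measure ℝ) [IsProbabilityMeasure ν] (k n0 : ℕ) (θ : ℝ),
  1 ≤ k → 1 ≤ n0 → 0 < θ → θ ≤ 1 → ∀ Y Y1 : ℝ≥0∞,
  (∀ n, ∑ e ∈ Finset.range n, yn K k (n0 * k) ν θ e ≤ Y) →
  (∀ n, ∑ e ∈ Finset.range n, (e : ℝ≥0∞) * yn K k (n0 * k) ν θ e ≤ Y1) →
  (∀ n, ∑ j ∈ Finset.range n, ∫⁻ x, BX (w1 K (n0 * k)) (n0 * k) j x ^ θ ∂(iid ν) ≤ n0 * Y) ∧
  ∀ n, ∑ j ∈ Finset.range n,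
    (j : ℝ≥0∞) * ∫⁻ x, BX (w1 K (n0 * k)) (n0 * k) j x ^ θ ∂(iid ν) ≤ Y1

/-- BF2: the chains of the base. -/
def T_BF2 : Prop := ∀ (K : PMF ℕ) (n0 k : ℕ) (ga gb : ℕ → ℝ≥0∞), 1 ≤ k → 1 ≤ n0 →
  (∀ D m : ℕ, 1 ≤ D → k < m → m ≤ n0 * k → (D - 1) * k < m → m < (D + 1) * k →
    pk K m * 2⁻¹ ≤ ga D) →
  (∀ D m : ℕ, 1 ≤ D → k < m → (D - 1) * k < m → m < (D + 1) * k → pk K m * 2⁻¹ ≤ gb D) →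
  ∀ J j : ℕ, j < J →
  B2 k (J * n0) (NX (w0 K k k) k) ga gb (TT n0 j)
    (fun p => CT (NX (w1 K (n0 * k)) k p false) (TT n0 j)) ∧
  ∀ x, BX (w1 K (n0 * k)) (n0 * k) j x ≤
    (∑ c ∈ Finset.range n0, ∑ c' ∈ TT n0 j, if c ≤ c' then
      BX (w0 K k k) k (c' - c) (shift (c * k) x) else 0) +
    ∑ c ∈ Finset.range n0, ∑ i ∈ Finset.range (J * n0 - c),
      ∑ D ∈ Finset.Icc 1 (J * n0 - 1 - c - i),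
      (NX (w0 K k k) k false false i (shift (c * k) x) * (ga D *
        CT (NX (w1 K (n0 * k)) k false false) (TT n0 j) (c + i + D)
          (shift ((c + i + D) * k) x)) +
       NX (w0 K k k) k false true i (shift (c * k) x) *
        (gb D * ex ((c + i + 1) * k) ((c + i + D) * k) x *
        CT (NX (w1 K (n0 * k)) k true false) (TT n0 j) (c + i + D)
          (shift ((c + i + D) * k) x)))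

/-- VI2: the induction over the cells. -/
def T_VI2 : Prop := ∀ (ν : Measure ℝ) [IsProbabilityMeasure ν] (k n0 J : ℕ)
  (N : Bool → Bool → ℕ → (ℕ → ℝ) → ℝ≥0∞) (ga gb : ℕ → ℝ≥0∞)
  (V : ℕ → Bool → ℕ → (ℕ → ℝ) → ℝ≥0∞) (φ : ℝ≥0∞ → ℝ≥0∞) (θ : ℝ) (u un : ℝ≥0∞ → ℝ≥0∞)
  (Es Eu qq qu v w : ℝ≥0∞), BV ν k n0 J N ga gb V φ θ u un Es Eu qq qu v w →
  ∀ p, ∀ a < J * n0, ∀ z, z ≠ ∞ →
  ∑ j ∈ Finset.range J, ∫⁻ x, φ (z * V j p a x) ∂(iid ν) ≤ z ^ θ * (u z * v + w)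

/-- BS2: the base for a concave function. -/
def T_BS2 : Prop := ∀ (ν : Measure ℝ) [IsProbabilityMeasure ν] (k n0 J : ℕ)
  (N : Bool → Bool → ℕ → (ℕ → ℝ) → ℝ≥0∞) (ga gb : ℕ → ℝ≥0∞)
  (V : ℕ → Bool → ℕ → (ℕ → ℝ) → ℝ≥0∞) (φ : ℝ≥0∞ → ℝ≥0∞) (θ : ℝ) (u un : ℝ≥0∞ → ℝ≥0∞)
  (Es Eu qq qu v w : ℝ≥0∞), BV ν k n0 J N ga gb V φ θ u un Es Eu qq qu v w →
  ∀ F G : ℕ → (ℕ → ℝ) → ℝ≥0∞, (∀ j, Measurable (G j)) →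
  (∀ j < J, ∀ x, F j x ≤ G j x +
    ∑ c ∈ Finset.range n0, ∑ i ∈ Finset.range (J * n0 - c),
      ∑ D ∈ Finset.Icc 1 (J * n0 - 1 - c - i),
      (N false false i (shift (c * k) x) * (ga D *
        V j false (c + i + D) (shift ((c + i + D) * k) x)) +
       N false true i (shift (c * k) x) *
        (gb D * ex ((c + i + 1) * k) ((c + i + D) * k) x *
        V j true (c + i + D) (shift ((c + i + D) * k) x)))) →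
  ∑ j ∈ Finset.range J, ∫⁻ x, φ (F j x) ∂(iid ν) ≤
    ∑ j ∈ Finset.range J, ∫⁻ x, φ (G j x) ∂(iid ν) + n0 * (qu * v + qq * w)

/-! ## B. Moments -/

/-- NTM: the moments of the neutral stretches. -/
def T_NTM : Prop := ∀ (K : PMF ℕ) (ν : Measure ℝ) (α c δ r ϑ ε τ ω s : ℝ) (k q : ℕ),
  BC K ν α c δ r ϑ ε τ ω s k q → ∀ θ : ℝ, 1 / 2 ≤ θ → θ ≤ 5 / 8 → ∀ (p r' : Bool) (b : ℕ),
  ∫⁻ x, NX (w0 K k k) k p r' b x ^ θ ∂(iid ν) ≤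
    ENNReal.ofReal ((Real.exp 2 * VH K k ϑ) ^ θ *
      Real.exp (-(kap ϑ ε θ τ δ * ((b : ℝ) + 1))))

/-- LKX: the links. -/
def T_LKX : Prop := ∀ (K : PMF ℕ) (ν : Measure ℝ) (α c δ r ϑ ε τ ω s : ℝ) (k q : ℕ),
  BC K ν α c δ r ϑ ε τ ω s k q → ∀ n0 : ℕ, 1 ≤ n0 →
  (∀ D m : ℕ, 1 ≤ D → k < m → m ≤ n0 * k → (D - 1) * k < m → m < (D + 1) * k →
    pk K m * 2⁻¹ ≤ gx α c k n0 D) ∧
  (∀ D m : ℕ, 1 ≤ D → k < m → (D - 1) * k < m → m < (D + 1) * k →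
    pk K m * 2⁻¹ ≤ gy α c k D) ∧
  ∀ θ : ℝ, 1 / 2 ≤ θ → θ ≤ 5 / 8 → 1 ≤ (1 + α) * θ → ∀ n : ℕ,
  ∑ D ∈ Finset.Icc 1 n,
    (gx α c k n0 D ^ θ + gy α c k D ^ θ * ∫⁻ x, ex 0 ((D - 1) * k) x ^ θ ∂(iid ν)) ≤
    ENNReal.ofReal ((c * (k : ℝ) ^ (-(1 + α))) ^ θ * La ϑ n0) ∧
  ∑ D ∈ Finset.Icc (1 : ℕ) n, (D : ℝ≥0∞) *
    (gx α c k n0 D ^ θ + gy α c k D ^ θ * ∫⁻ x, ex 0 ((D - 1) * k) x ^ θ ∂(iid ν)) ≤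
    ENNReal.ofReal ((c * (k : ℝ) ^ (-(1 + α))) ^ θ * (2 * n0 + 40 / ϑ))

/-- QTB: total moments of the base. -/
def T_QTB : Prop := ∀ (K : PMF ℕ) (ν : Measure ℝ) (α c δ r ϑ ε τ ω s : ℝ) (k q : ℕ),
  BC K ν α c δ r ϑ ε τ ω s k q → ∀ (n0 : ℕ) (e Nb : ℝ), 1 ≤ n0 → 0 < e →
  32 * Real.sqrt δ * La ϑ n0 / kap ϑ ε (te α s) τ δ ≤ 1 / 4 →
  40 * Real.sqrt δ / (kap ϑ ε (te α s) τ δ * e) ≤ Nb →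
  40 * Real.sqrt δ / (kap ϑ ε (te α s) τ δ ^ 2 * e * n0) *
    (1 + 32 * Real.sqrt δ * (2 * n0 + 40 / ϑ)) ≤ Nb →
  QTe K ν e α s c ϑ k (n0 * k) ≤ ENNReal.ofReal Nb ∧
  QRe K ν e α s c ϑ k (n0 * k) ≤ ENNReal.ofReal Nb

/-! ## C. The sharp logarithmic moment -/

/-- TNG: the concave function at the cell functional. -/
def T_TNG : Prop := ∀ V t θ : ℝ, 0 < V → V ≤ t → 1 / 2 ≤ θ → θ ≤ 3 / 4 → ∀ {ι : Type}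
  (P : Finset ι) (S n : ι → ℝ) (N : ι → ℝ≥0∞), (∀ p ∈ P, 1 ≤ n p) →
  (∀ p ∈ P, Real.exp (S p) * n p ≤ ∑ p' ∈ P, Real.exp (S p')) →
  Gf t θ (∑ p ∈ P, N p) ≤ ∑ p ∈ P,
    (ENNReal.ofReal (V ^ θ *
      ((1 - θ) * (Real.exp (θ * S p) * (n p ^ (θ - 1) * max (S p) 0 + 7)))) +
     ENNReal.ofReal (V ^ (θ - 1) *
      (Real.exp ((θ - 1) * S p) * (θ * (n p ^ (θ - 1) * max (S p) 0) + 8))) * N p)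

/-- FHL: the cell functional from below. -/
def T_FHL : Prop := ∀ (R : ℕ) (y : ℕ → ℝ) (c c' : ℕ), R ≤ c → c + 2 * R ≤ c' →
  ∀ P : Finset (ℕ × ℕ),
  (∀ a b, c ≤ a + R → a ≤ c + R → c' ≤ b + R → b ≤ c' + R → (a, b) ∈ P) →
  Real.exp (H y c (c' + 1)) * (NL R y c * NR R y c') ≤
    ∑ p ∈ P, Real.exp (H y p.1 (p.2 + 1)) ∧ 1 ≤ NL R y c * NR R y c'

open Classical in
/-- BND: the pairs close to a boundary. -/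
def T_BND : Prop := ∀ (f : ℕ → ℝ≥0∞) (n0 R J : ℕ), 1 ≤ n0 →
  ∑ j ∈ Finset.range J, ∑ c ∈ Finset.range n0, ∑ c' ∈ TT n0 j,
    (if c ≤ c' ∧ ¬ In R n0 c c' then f (c' - c) else 0) ≤
    4 * R * ∑ d ∈ Finset.range (J * n0), f d + n0 * ∑ d ∈ Finset.range (2 * R), f d

/-- PR0: the integrals of a pair, without functions of the ends. -/
def T_PR0 : Prop := ∀ (K : PMF ℕ) (ν : Measure ℝ) (α c δ r ϑ ε τ ω s : ℝ) (k q : ℕ),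
  BC K ν α c δ r ϑ ε τ ω s k q → ∀ d : ℕ,
  ∫⁻ x, ENNReal.ofReal (Real.exp ((te α s - 1) * Sy k ϑ x 0 ((d + 1) * k))) *
      BX (w0 K k k) k d x ∂(iid ν) ≤
    ENNReal.ofReal (VH K k ϑ * Real.exp (-(kap ϑ ε (te α s) τ δ * ((d : ℝ) + 1)))) ∧
  ∫⁻ x, ENNReal.ofReal (Sy k ϑ x 0 ((d + 1) * k)) *
      (ENNReal.ofReal (Real.exp ((te α s - 1) * Sy k ϑ x 0 ((d + 1) * k))) *
      BX (w0 K k k) k d x) ∂(iid ν) ≤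
    ENNReal.ofReal (VH K k ϑ * Real.exp (-(kap ϑ ε (te α s) τ δ * ((d : ℝ) + 1))) *
      (ad ϑ ω * ((d : ℝ) + 1) + 32)) ∧
  ∫⁻ x : ℕ → ℝ, ENNReal.ofReal (Real.exp (te α s * Sy k ϑ x 0 ((d + 1) * k))) ∂(iid ν) ≤
    ENNReal.ofReal (Real.exp (-(kap ϑ ε (te α s) τ δ * ((d : ℝ) + 1)))) ∧
  ∫⁻ x : ℕ → ℝ, ENNReal.ofReal (Sy k ϑ x 0 ((d + 1) * k)) *
      ENNReal.ofReal (Real.exp (te α s * Sy k ϑ x 0 ((d + 1) * k))) ∂(iid ν) ≤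
    ENNReal.ofReal (Real.exp (-(kap ϑ ε (te α s) τ δ * ((d : ℝ) + 1))) *
      (ad ϑ ω * ((d : ℝ) + 1) + 4))

/-- PR1: the integrals of a pair, with the two-sided sums at the ends. -/
def T_PR1 : Prop := ∀ (K : PMF ℕ) (ν : Measure ℝ) (α c δ r ϑ ε τ ω s : ℝ) (k q : ℕ),
  BC K ν α c δ r ϑ ε τ ω s k q → ∀ R d : ℕ, 2 ≤ R → 2 * R ≤ d →
  ∫⁻ x, ENNReal.ofReal ((NL R (yk k ϑ x) R * NR R (yk k ϑ x) (R + d)) ^ (te α s - 1)) *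
      (ENNReal.ofReal (Sy k ϑ x (R * k) ((R + d + 1) * k)) *
      (ENNReal.ofReal (Real.exp ((te α s - 1) * Sy k ϑ x (R * k) ((R + d + 1) * k))) *
      BX (w0 K k k) k d (shift (R * k) x))) ∂(iid ν) ≤
    ENNReal.ofReal (VH K k ϑ * Real.exp (-(kap ϑ ε (te α s) τ δ * ((d : ℝ) + 1))) *
      (Q2 (rl ν k ϑ) ϑ (te α s) τ R * (ad ϑ ω * ((d : ℝ) + 1) + 4) + Real.exp (2 * R + 8))) ∧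
  ∫⁻ x, ENNReal.ofReal ((NL R (yk k ϑ x) R * NR R (yk k ϑ x) (R + d)) ^ (te α s - 1)) *
      (ENNReal.ofReal (Sy k ϑ x (R * k) ((R + d + 1) * k)) *
      ENNReal.ofReal (Real.exp (te α s * Sy k ϑ x (R * k) ((R + d + 1) * k)))) ∂(iid ν) ≤
    ENNReal.ofReal (Real.exp (-(kap ϑ ε (te α s) τ δ * ((d : ℝ) + 1))) *
      (Q2 (rl ν k ϑ) ϑ (te α s) τ R * (ad ϑ ω * ((d : ℝ) + 1) + 4) + Real.exp (2 * R + 8)))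

/-- MNG: the neutral stretches between the boxes. -/
def T_MNG : Prop := ∀ (K : PMF ℕ) (ν : Measure ℝ) (α c δ r ϑ ε τ ω s : ℝ) (k q : ℕ),
  BC K ν α c δ r ϑ ε τ ω s k q → ∀ (R n0 J : ℕ) (t : ℝ), 2 ≤ R → 1 ≤ n0 → VH K k ϑ ≤ t →
  ∑ j ∈ Finset.range J, ∫⁻ x, Gf t (te α s) (∑ c ∈ Finset.range n0, ∑ c' ∈ TT n0 j,
    if c ≤ c' then BX (w0 K k k) k (c' - c) (shift (c * k) x) else 0) ∂(iid ν) ≤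
  ENNReal.ofReal (VH K k ϑ ^ te α s * (n0 *
      (Q2 (rl ν k ϑ) ϑ (te α s) τ R * (ad ϑ ω / kap ϑ ε (te α s) τ δ ^ 2 +
        4 / kap ϑ ε (te α s) τ δ) + Real.exp (2 * R + 9) / kap ϑ ε (te α s) τ δ) +
    4 * R * (ad ϑ ω / kap ϑ ε (te α s) τ δ ^ 2 + 40 / kap ϑ ε (te α s) τ δ) +
    n0 * (2 * R * (2 * R * ad ϑ ω + 40))))

/-- QGB: the logarithmic moment of the base. -/
def T_QGB : Prop := ∀ (K : PMF ℕ) (ν : Measure ℝ) (α c δ r ϑ ε τ ω s : ℝ) (k q : ℕ),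
  BC K ν α c δ r ϑ ε τ ω s k q → ∀ (R n0 : ℕ) (e G : ℝ), 2 ≤ R → 1 ≤ n0 → 0 < e →
  32 * Real.sqrt δ * La ϑ n0 / kap ϑ ε (te α s) τ δ ≤ 1 / 4 →
  GB δ ϑ ω (kap ϑ ε (te α s) τ δ) (kap ϑ ε (te α (2 * s)) τ δ) (s / (1 + α))
    (Q2 (rl ν k ϑ) ϑ (te α s) τ R) R n0 ≤ G →
  QGe K ν e α s c ϑ k (n0 * k) ≤ ENNReal.ofReal G

/-! ## D. Parameters -/

/-- CHX: the choice of the size of the cells. -/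
def T_CHX : Prop := ∀ kp : ℝ, ks < kp → ∃ (ς δ0 ϑ ω τ1 : ℝ) (R Q : ℕ), 0 < ς ∧ ς ≤ kp ∧
  0 < δ0 ∧ δ0 ≤ 1 / 4 ∧ 0 < ϑ ∧ ϑ ≤ 1 / 64 ∧ 0 < ω ∧ ω ≤ 1 ∧ ϑ ≤ ω / 64 ∧ 2 ≤ R ∧ 0 < τ1 ∧
  ∀ (ρ : Measure ℝ) [IsProbabilityMeasure ρ], (∀ t : ℝ, Integrable (fun z => Real.exp (t * z)) ρ) →
  (∀ q : ℝ, -1 ≤ q → q ≤ Q → Real.exp (ϑ * (q ^ 2 / 2 - q / 4) - τ1) ≤ Mo ρ q ∧
    Mo ρ q ≤ Real.exp (ϑ * (q ^ 2 / 2 - q / 4) + τ1)) →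
  ∀ θ τ : ℝ, |θ - 1 / 2| ≤ τ1 → 0 ≤ τ → τ ≤ τ1 → 0 ≤ Q2 ρ ϑ θ τ R ∧
  (1 + 8 * ϑ) * (1 + ϑ) ^ 3 * (1 / Real.sqrt 2) *
    (Q2 ρ ϑ θ τ R * ad ϑ ω / (ϑ ^ 2 / 4 * (kp - ς / 4) ^ 2)) ≤ 1 - 4 * δ0

/-- NM1: numerical conditions of the scales. -/
def T_NM1 : Prop := ∀ ς ϑ Nb C κc : ℝ, 0 < ς → 0 < ϑ → ϑ ≤ 1 → 1 ≤ Nb → 1 ≤ C → 0 < κc →
  ∃ x0 : ℝ, 0 < x0 ∧ ∀ x : ℝ, 0 < x → x < x0 → ∀ α : ℝ, 1 - x ^ 4 ≤ α → α ≤ 1 →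
  Pre α (ς * x) x ϑ (hx x) (C * Nb) (x ^ (1 / 8 : ℝ)) (Mx x) (Xx ς x) ∧ hx x * Nb ≤ κc ∧
  Jx x * x ^ (1 / 8 : ℝ) * Nb ≤ κc ∧
  4 * (x * (C * Nb) * (1 / ((Mx x ^ Jx x * nx0 x : ℕ) : ℝ)) ^ (ς * x) *
    (3 + 1 / (ς * x))) ≤ 1 ∧ te α (ς * x) < 1 ∧ 1 ≤ nx0 x

/-- NM2: numerical conditions of the base. -/
def T_NM2 : Prop := ∀ (kp ς δ0 ϑ ω : ℝ) (R : ℕ), 0 < kp → 0 < ς → ς ≤ kp → 0 < δ0 →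
  δ0 ≤ 1 / 4 → 0 < ϑ → ϑ ≤ 1 / 64 → 0 < ω → ω ≤ 1 → ∃ Nb x0 : ℝ, 1 ≤ Nb ∧ 0 < x0 ∧ ∀ x : ℝ,
  0 < x → x < x0 → ∀ α τ : ℝ, 1 - x ^ 4 ≤ α → α ≤ 1 → 0 ≤ τ → τ ≤ x ^ 4 →
  1 / 2 ≤ te α (ς * x) ∧ te α (2 * (ς * x)) ≤ 5 / 8 ∧
  |te α (ς * x) - 1 / 2 - kp * x| ≤ ω / 64 ∧ 2 * τ ≤ ω ^ 2 * ϑ / 2 ^ 10 ∧ x ^ 4 ≤ ϑ / 16 ∧
  0 < kap ϑ (kp * x) (te α (ς * x)) τ (x ^ 4) ∧
  0 < kap ϑ (kp * x) (te α (2 * (ς * x))) τ (x ^ 4) ∧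
  32 * Real.sqrt (x ^ 4) * La ϑ (nx0 x) / kap ϑ (kp * x) (te α (ς * x)) τ (x ^ 4) ≤ 1 / 4 ∧
  40 * Real.sqrt (x ^ 4) / (kap ϑ (kp * x) (te α (ς * x)) τ (x ^ 4) * x) ≤ Nb ∧
  40 * Real.sqrt (x ^ 4) / (kap ϑ (kp * x) (te α (ς * x)) τ (x ^ 4) ^ 2 * x * nx0 x) *
    (1 + 32 * Real.sqrt (x ^ 4) * (2 * nx0 x + 40 / ϑ)) ≤ Nb ∧
  ∀ Qv : ℝ, 0 ≤ Qv → (1 + 8 * ϑ) * (1 + ϑ) ^ 3 * (1 / Real.sqrt 2) *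
    (Qv * ad ϑ ω / (ϑ ^ 2 / 4 * (kp - ς / 4) ^ 2)) ≤ 1 - 4 * δ0 →
  GB (x ^ 4) ϑ ω (kap ϑ (kp * x) (te α (ς * x)) τ (x ^ 4))
    (kap ϑ (kp * x) (te α (2 * (ς * x))) τ (x ^ 4)) (ς * x / (1 + α)) Qv R (nx0 x) ≤
    (1 + α) * (1 / 2 - δ0)

/-- PLX: the law of the charges. -/
def T_PLX : Prop := ∀ (μ : Measure ℝ) [IsProbabilityMeasure μ],
  (∀ t : ℝ, Integrable (fun z => Real.exp (t * z)) μ) → ∫ z, z ∂μ = 0 → ∫ z, z ^ 2 ∂μ = 1 →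
  ∀ ϑ U : ℝ, 0 < ϑ → 0 < U → ∃ C lam0 : ℝ, 0 < C ∧ 0 < lam0 ∧ ∀ lam ε : ℝ, 0 < lam →
  lam < lam0 → 0 ≤ ε → ε ≤ 1 →
  EG (chargeLaw μ lam ((3 / 4 + ε) * lam)) ⌈ϑ / lam ^ 2⌉₊ ϑ ε (C * lam) U

/-- KRX: the inter-arrival law, `α < 1`. -/
def T_KRX : Prop := ∀ r : ℝ, 0 < r → r ≤ 1 / 8 → ∃ α1 : ℝ, α1 < 1 ∧ ∀ α : ℝ, α1 < α → α < 1 →
  ∀ (K : PMF ℕ), K 0 = 0 → ∀ cK : ℝ, 0 < cK →
  Tendsto (fun n : ℕ => (K n).toReal * (n : ℝ) ^ (1 + α)) atTop (𝓝 cK) →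
  ∀ᶠ k : ℕ in atTop, RX K α cK (1 - α) r k ⌊Real.sqrt (1 - α) * k⌋₊

/-- KRY: the inter-arrival law, `α = 1`. -/
def T_KRY : Prop := ∀ r : ℝ, 0 < r → r ≤ 1 / 8 → ∀ (K : PMF ℕ), K 0 = 0 → ∀ cK : ℝ, 0 < cK →
  Tendsto (fun n : ℕ => (K n).toReal * (n : ℝ) ^ (1 + (1 : ℝ))) atTop (𝓝 cK) →
  ∀ᶠ k : ℕ in atTop, RX K 1 cK (1 / Real.log k) r k ⌊Real.sqrt (1 / Real.log k) * k⌋₊

/-! ## E. The theorems -/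

/-- UFX: the moments of the partition function are bounded. -/
def T_UFX : Prop := ∀ kp : ℝ, ks < kp → ∃ ϑ U δ2 : ℝ, 0 < ϑ ∧ ϑ ≤ 1 / 64 ∧ 0 < U ∧ 0 < δ2 ∧
  ∀ (K : PMF ℕ) (α c δ τ : ℝ) (k q n1 : ℕ) (ν : Measure ℝ), δ < δ2 →
  RX K α c δ (ϑ / 8) k q → EG ν k ϑ (kp * δ ^ (1 / 4 : ℝ)) τ U → 0 ≤ τ → τ ≤ δ →
  Reg K α c ϑ n1 → n1 ≤ k → 16 ≤ ϑ * k →
  ∃ θ C : ℝ, 0 < θ ∧ θ ≤ 1 ∧ 0 ≤ C ∧ ∀ N : ℕ, ∫⁻ x, Wn K N x ^ θ ∂(iid ν) ≤ ENNReal.ofReal C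

/-- UPX: upper bound, `α < 1`. -/
def T_UPX : Prop := ∀ e0 : ℝ, 0 < e0 → ∃ α0 : ℝ, α0 < 1 ∧ ∀ α : ℝ, α0 < α → α < 1 →
  ∀ (K : PMF ℕ), K 0 = 0 → ∀ cK : ℝ, 0 < cK →
  Tendsto (fun n : ℕ => (K n).toReal * (n : ℝ) ^ (1 + α)) atTop (𝓝 cK) →
  ∀ (μ : Measure ℝ) [IsProbabilityMeasure μ],
  (∀ t : ℝ, Integrable (fun z => Real.exp (t * z)) μ) → ∫ z, z ∂μ = 0 → ∫ z, z ^ 2 ∂μ = 1 →
  ∀ᶠ lam in 𝓝[>] (0 : ℝ),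
    criticalCurve K μ lam / lam ≤ 3 / 4 + (ks + e0) * (1 - α) ^ (1 / 4 : ℝ)

/-- UPY: upper bound, `α = 1`. -/
def T_UPY : Prop := ∀ e0 : ℝ, 0 < e0 → ∀ (K : PMF ℕ), K 0 = 0 → ∀ cK : ℝ, 0 < cK →
  Tendsto (fun n : ℕ => (K n).toReal * (n : ℝ) ^ (1 + (1 : ℝ))) atTop (𝓝 cK) →
  ∀ (μ : Measure ℝ) [IsProbabilityMeasure μ],
  (∀ t : ℝ, Integrable (fun z => Real.exp (t * z)) μ) → ∫ z, z ∂μ = 0 → ∫ z, z ^ 2 ∂μ = 1 →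
  ∀ᶠ lam in 𝓝[>] (0 : ℝ), criticalCurve K μ lam / lam ≤
    3 / 4 + (1 / (4 * Real.sqrt Real.pi) + e0) * Real.log (1 / lam) ^ (-(1 / 4) : ℝ)

end Pool.Agent.H98.EX
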