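import Pool.Agent.H98.EX.LDefs
import Pool.Agent.H98.EX.BTargets

/-!
# The exact constant of the copolymer slope as `α → 1`: targets, lower half (helper98)

Every `T_X` is a proposition to be proved in a module of its own.
-/

set_option autoImplicit false

open MeasureTheory ProbabilityTheory Filter Topology
open scoped ENNReal
open Pool.Agent.H95 Pool.Agent.H95.Cop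
open Pool.Agent.H55.CG (VV Mo)
open Pool.Agent.H96.Cop (chargeLaw)
open Pool.Agent.H98.CE (pc WB HK OBJ nx Fl)
open Pool.Agent.H98.SLN (RG TS MM YY sd)

namespace Pool.Agent.H98.EX

/-! ## A. The inter-arrival law -/

/-- VVX: the mass of the pairs of sites of a cell. -/
def T_VVX : Prop := ∀ (K : PMF ℕ) (α c δ r : ℝ) (k q : ℕ), RX K α c δ r k q → 8 ≤ r * k →
  (k : ℝ) ^ 2 ≤ 2 * TS K k * VV K k ∧ 2 * TS K k * VV K k ≤ (1 + 4 * r) * (k : ℝ) ^ 2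

/-- HKX: the jump law on the scale of the cells. -/
def T_HKX : Prop := ∀ (K : PMF ℕ) (α c δ r : ℝ) (k q : ℕ), RX K α c δ r k q →
  HK K k α ((1 - r) ^ 2 * δ / 4) ∧
  (1 - r) ^ 2 * δ / 4 ≤ VV K k * ((1 - r) * c / 2) * (k : ℝ) ^ (-(1 + α)) ∧ 0 < VV K k

/-- MMX: the mass of the paths with short excursions. -/
def T_MMX : Prop := ∀ (K : PMF ℕ) (α c δ r : ℝ) (k q : ℕ), RX K α c δ r k q → 8 ≤ r * k →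
  ∀ a b : ℕ, a + 1 ≤ b → 2 ^ 9 * Real.sqrt δ * ((b : ℝ) + 1 - a) ≤ r →
  2 * (1 - 8 * r) * VV K k ≤ MM K k q a b

/-! ## B. The exponents -/

/-- YGX: the exponent of the paths is not much smaller than the typical one. -/
def T_YGX : Prop := ∀ (K : PMF ℕ) (α c δ : ℝ) (k q : ℕ), RG K α c δ k q →
  ∀ (ϖ : Measure ℝ) [IsProbabilityMeasure ϖ], Integrable (fun z => z ^ 4) ϖ → ∀ ϑ τ : ℝ,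
  0 < ϑ → ϑ ≤ 1 / 2 ^ 12 → 0 ≤ τ → k * |∫ z, z ∂ϖ| ≤ ϑ → |k * (∫ z, z ^ 2 ∂ϖ) - 4 * ϑ| ≤ τ →
  k * (∫ z, z ^ 4 ∂ϖ) ≤ τ → ∀ a b : ℕ, a + 1 ≤ b →
  2 ^ 9 * Real.sqrt δ * ((b : ℝ) + 1 - a) ≤ 1 →
  ((b : ℝ) + 1 - a) * (τ + Real.sqrt δ) ≤ ϑ / 32 →
  (iid ϖ).real {x : ℕ → ℝ | YY K k q x a b < cX k ϑ x a b - 3 * ϑ ^ (1 / 4 : ℝ)} ≤
    6 * ϑ ^ (1 / 4 : ℝ)

/-- BDX: the same under the tilt of a pair. -/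
def T_BDX : Prop := ∀ (K : PMF ℕ) (ν : Measure ℝ) (α c δ r ϑ ε τ β ζ η : ℝ)
  (k q n R D J : ℕ), DC K ν α c δ r ϑ ε τ β ζ η k q n R D J → ∀ a b : ℕ, a + 1 ≤ b →
  b + 1 ≤ a + D →
  ∫ x in {x : ℕ → ℝ | ¬ gX K k q ϑ x (a, b)}, Real.exp (1 / (1 + α) * cX k ϑ x a b) ∂(iid ν) ≤
    Mo (rl ν k ϑ) (1 / (1 + α)) ^ (b + 1 - a) * (6 * ϑ ^ (1 / 4 : ℝ))

/-- EXZ: exponential moments of pairs. -/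
def T_EXZ : Prop := ∀ (ρ : Measure ℝ) [IsProbabilityMeasure ρ],
  (∀ t : ℝ, Integrable (fun z => Real.exp (t * z)) ρ) → ∀ γ s r0 : ℝ, 0 < r0 → r0 ≤ 1 →
  Mo ρ (γ - s) ≤ r0 * Mo ρ γ → Mo ρ s ≤ r0 → ∀ a b a' b' : ℕ, a ≤ b → a' ≤ b' →
  Integrable (fun y : ℕ → ℝ =>
    Real.exp (γ * H y a (b + 1) + s * (H y a' (b' + 1) - H y a (b + 1)))) (iid ρ) ∧
  ∫ y : ℕ → ℝ, Real.exp (γ * H y a (b + 1) + s * (H y a' (b' + 1) - H y a (b + 1))) ∂(iid ρ) ≤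
    Mo ρ γ ^ (b + 1 - a) * r0 ^ sd a b a' b'

/-- RTX: sums of ratios are rarely large under the tilt of a pair. -/
def T_RTX : Prop := ∀ (ρ : Measure ℝ) [IsProbabilityMeasure ρ],
  (∀ t : ℝ, Integrable (fun z => Real.exp (t * z)) ρ) → ∀ γ r0 : ℝ, 0 < r0 → r0 ≤ 1 →
  Mo ρ (γ - 1 / 4) ≤ r0 * Mo ρ γ → Mo ρ (1 / 4) ≤ r0 → ∀ F : Finset (ℕ × ℕ),
  (∀ p ∈ F, p.1 ≤ p.2) → ∀ a b : ℕ, a ≤ b → ∀ m : ℝ, 0 < m →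
  ∫ y in {y : ℕ → ℝ | m < RT F y a b}, Real.exp (γ * H y a (b + 1)) ∂(iid ρ) ≤
    Mo ρ γ ^ (b + 1 - a) * (m ^ (-(1 / 4) : ℝ) * ∑ p ∈ F, r0 ^ sd a b p.1 p.2)

/-- SRX: the sum over the pairs that are not near. -/
def T_SRX : Prop := ∀ (r0 : ℝ) (n R a b : ℕ), 0 < r0 → r0 < 1 → a ≤ b → b < n →
  ∑ p ∈ QS n \ NS R a b, r0 ^ sd a b p.1 p.2 ≤
    8 * r0 ^ (R + 1) / (1 - r0) ^ 2 + n * (r0 ^ (b + 1 - a) / (1 - r0))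

/-- WNX: the exponent of a pair under its tilt. -/
def T_WNX : Prop := ∀ (ν : Measure ℝ) (k : ℕ) (ϑ ε τ : ℝ), EG ν k ϑ ε τ 3 → 1 ≤ k → 0 < ϑ →
  0 ≤ ε → 0 ≤ τ → ∀ γ δ s m : ℝ, 1 / 2 ≤ γ → γ ≤ 1 / 2 + δ → γ ≤ 1 → 0 < s → s ≤ 1 / 2 →
  0 ≤ m → ∀ a b : ℕ, a ≤ b →
  ∫ y in {y : ℕ → ℝ | m < |H y a (b + 1) - ϑ / 4 * ((b : ℝ) + 1 - a)|},
    Real.exp (γ * H y a (b + 1)) ∂(iid (rl ν k ϑ)) ≤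
  Mo (rl ν k ϑ) γ ^ (b + 1 - a) * (2 * Real.exp (-(s * m) +
    ((b : ℝ) + 1 - a) * (ϑ * (s * (ε + δ) + s ^ 2 / 2) + 2 * τ)))

/-- MGL: the moments of an increment. -/
def T_MGL : Prop := ∀ (ν : Measure ℝ) (k : ℕ) (ϑ ε τ : ℝ), EG ν k ϑ ε τ 3 → 1 ≤ k → 0 < ϑ →
  0 ≤ ε → ∀ γ δ : ℝ, 0 ≤ δ → δ ≤ 1 / 4 → 1 / 2 ≤ γ → γ ≤ 1 / 2 + δ / 2 →
  Real.exp (-((1 / 2 + δ) * ε * ϑ) - τ) ≤ Mo (rl ν k ϑ) γ ∧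
  Mo (rl ν k ϑ) γ ≤ Real.exp (ϑ * δ + τ) ∧
  Mo (rl ν k ϑ) (2 * γ) ≤ Real.exp (ϑ * (3 / 4) + τ) ∧
  (ε ≤ 1 / 64 → τ ≤ ϑ / 256 →
    Mo (rl ν k ϑ) (γ - 1 / 4) ≤ Real.exp (-(ϑ / 64)) * Mo (rl ν k ϑ) γ ∧
    Mo (rl ν k ϑ) (1 / 4) ≤ Real.exp (-(ϑ / 64)))

/-! ## C. The functional of a box -/

/-- WXD: deterministic properties. -/
def T_WXD : Prop := ∀ (K : PMF ℕ) (α c δ r ϑ β : ℝ) (k q : ℕ), RX K α c δ r k q → 8 ≤ r * k →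
  r ≤ 1 / 64 → 0 < ϑ → ϑ ≤ 1 / 2 ^ 12 → 0 < β → ∀ n D J : ℕ, 2 ^ 9 * Real.sqrt δ * D ≤ r →
  Measurable (wX K k q r ϑ β n D J) ∧ Measurable (lX K k q r ϑ β n D J) ∧
  DepLt (n * k) (wX K k q r ϑ β n D J) ∧ DepLt (n * k) (lX K k q r ϑ β n D J) ∧
  ∀ x : ℕ → ℝ, 0 ≤ wX K k q r ϑ β n D J x ∧ wX K k q r ϑ β n D J x ≤ WB K k n x ∧
    (lX K k q r ϑ β n D J x = 0 → wX K k q r ϑ β n D J x = 0) ∧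
    (lX K k q r ϑ β n D J x ≠ 0 →
      Real.exp (β * lX K k q r ϑ β n D J x) ≤ wX K k q r ϑ β n D J x) ∧
    lX K k q r ϑ β n D J x ≤ J

/-- NRX: the pairs near a pair. -/
def T_NRX : Prop := ∀ (y : ℕ → ℝ) (R a b : ℕ), R ≤ a → a + 2 * R ≤ b →
  RT (NS R a b) y a b = NL R y a * NR R y b ∧ 1 ≤ NL R y a ∧ 1 ≤ NR R y b

/-- SPX: the shares of the pairs. -/
def T_SPX : Prop := ∀ (K : PMF ℕ) (ν : Measure ℝ) (α c δ r ϑ ε τ β ζ η : ℝ)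
  (k q n R D J : ℕ), DC K ν α c δ r ϑ ε τ β ζ η k q n R D J → ∀ j : ℕ, 3 ≤ j → j ≤ J →
  ∀ x : ℕ → ℝ, cc r ϑ ^ (1 / (1 + α)) / (1 + η) *
    ∑ p ∈ WS β ζ ϑ n R j, sh K k q ϑ β ζ η (1 / (1 + α)) n R x p.1 p.2 ≤
  if lX K k q r ϑ β n D J x = j then wX K k q r ϑ β n D J x ^ (1 / (1 + α)) else 0

/-- IDX: the two-sided sums at the ends, under the tilt of the pair. -/
def T_IDX : Prop := ∀ (ρ : Measure ℝ) [IsProbabilityMeasure ρ],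
  (∀ t : ℝ, Integrable (fun z => Real.exp (t * z)) ρ) → ∀ (γ p : ℝ) (R a b : ℕ), 0 ≤ p →
  1 ≤ R → R ≤ a → a + 2 * R ≤ b →
  Integrable (fun y : ℕ → ℝ => Real.exp (γ * H y a (b + 1)) *
    (NL R y a * NR R y b) ^ (-p)) (iid ρ) ∧
  ∫ y : ℕ → ℝ, Real.exp (γ * H y a (b + 1)) * (NL R y a * NR R y b) ^ (-p) ∂(iid ρ) =
    Mo ρ γ ^ (b + 1 - a) * QQ ρ γ p R R ^ 2

/-- BAX: the bad environments. -/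
def T_BAX : Prop := ∀ (K : PMF ℕ) (ν : Measure ℝ) (α c δ r ϑ ε τ β ζ η : ℝ)
  (k q n R D J : ℕ), DC K ν α c δ r ϑ ε τ β ζ η k q n R D J → ∀ s : ℝ, 0 < s → s ≤ 1 / 2 →
  ∀ j : ℕ, 3 ≤ j → j ≤ J → ∀ p ∈ WS β ζ ϑ n R j,
  ∫ x in {x : ℕ → ℝ | Bd K k q ϑ β ζ η n R x p.1 p.2},
    Real.exp (1 / (1 + α) * cX k ϑ x p.1 p.2) ∂(iid ν) ≤
  Mo (rl ν k ϑ) (1 / (1 + α)) ^ (p.2 + 1 - p.1) * Pb ϑ β ζ η ε δ τ s n R D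

/-- DNP: the density of one pair. -/
def T_DNP : Prop := ∀ (K : PMF ℕ) (ν : Measure ℝ) (α c δ r ϑ ε τ β ζ η : ℝ)
  (k q n R D J : ℕ), DC K ν α c δ r ϑ ε τ β ζ η k q n R D J → ∀ j : ℕ, 3 ≤ j → j ≤ J →
  ∀ p ∈ WS β ζ ϑ n R j, ∀ P : ℝ, 0 ≤ P →
  ∫ x in {x : ℕ → ℝ | Bd K k q ϑ β ζ η n R x p.1 p.2},
    Real.exp (1 / (1 + α) * cX k ϑ x p.1 p.2) ∂(iid ν) ≤
    Mo (rl ν k ϑ) (1 / (1 + α)) ^ (p.2 + 1 - p.1) * P →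
  Integrable (fun x : ℕ → ℝ => sh K k q ϑ β ζ η (1 / (1 + α)) n R x p.1 p.2) (iid ν) ∧
  Mo (rl ν k ϑ) (1 / (1 + α)) ^ (p.2 + 1 - p.1) *
    (QQ (rl ν k ϑ) (1 / (1 + α)) (1 - 1 / (1 + α)) R R ^ 2 -
      Real.sqrt P * QQ (rl ν k ϑ) (1 / (1 + α)) (2 - 2 * (1 / (1 + α))) R R) ≤
    ∫ x : ℕ → ℝ, sh K k q ϑ β ζ η (1 / (1 + α)) n R x p.1 p.2 ∂(iid ν)

/-- CNX: the number of the pairs. -/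
def T_CNX : Prop := ∀ (β ζ ϑ : ℝ) (n R D j : ℕ), 0 < β → 0 < ϑ → 0 < ζ → ζ ≤ 1 / 4 →
  4 * β * ((j : ℝ) + 1) / ϑ ≤ D → 1 ≤ 4 * β * (1 - 2 * ζ) / ϑ → 2 * R + D ≤ n →
  ((n : ℝ) - 2 * R - D) * (4 * β * (1 - 2 * ζ) / ϑ - 1) ≤ ((WS β ζ ϑ n R j).card : ℝ)

open Classical in
/-- DNX: the density. -/
def T_DNX : Prop := ∀ (K : PMF ℕ) (ν : Measure ℝ) (α c δ r ϑ ε τ β ζ η : ℝ)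
  (k q n R D J : ℕ), DC K ν α c δ r ϑ ε τ β ζ η k q n R D J → ∀ s : ℝ, 0 < s → s ≤ 1 / 2 →
  1 ≤ 4 * β * (1 - 2 * ζ) / ϑ → ∀ X : ℝ, 0 ≤ X →
  X ≤ QQ (rl ν k ϑ) (1 / (1 + α)) (1 - 1 / (1 + α)) R R ^ 2 -
    Real.sqrt (Pb ϑ β ζ η ε δ τ s n R D) *
      QQ (rl ν k ϑ) (1 / (1 + α)) (2 - 2 * (1 / (1 + α))) R R →
  ∀ j : ℕ, 3 ≤ j → j ≤ J →
  cc r ϑ ^ (1 / (1 + α)) / (1 + η) *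
    (((n : ℝ) - 2 * R - D) * (4 * β * (1 - 2 * ζ) / ϑ - 1)) *
    Real.exp (-((1 / 2 + δ) * ε * (4 * β * ((j : ℝ) + 1))) - τ * D) * X ≤
  ∫ x : ℕ → ℝ, (if lX K k q r ϑ β n D J x = j then
    wX K k q r ϑ β n D J x ^ (1 / (1 + α)) else 0) ∂(iid ν)

/-- MUX: the moments from above. -/
def T_MUX : Prop := ∀ (K : PMF ℕ) (ν : Measure ℝ) (α c δ r ϑ ε τ β ζ η : ℝ)
  (k q n R D J : ℕ), DC K ν α c δ r ϑ ε τ β ζ η k q n R D J →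
  Integrable (fun x => wX K k q r ϑ β n D J x ^ (1 / (1 + α))) (iid ν) ∧
  Integrable (fun x => wX K k q r ϑ β n D J x ^ (2 / (1 + α))) (iid ν) ∧
  ∫ x, wX K k q r ϑ β n D J x ^ (1 / (1 + α)) ∂(iid ν) ≤ n * (4 * D) ∧
  ∫ x, wX K k q r ϑ β n D J x ^ (2 / (1 + α)) ∂(iid ν) ≤ 4 * ((n : ℝ) * D) ^ 2 * Real.exp D

/-! ## D. The first level -/

/-- CHL: the choice of the size of the cells. -/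
def T_CHL : Prop := ∀ e : ℝ, 0 < e → e < 1 → ∃ (ζ η ϑ r τ1 : ℝ) (R Q : ℕ), 0 < ζ ∧ ζ ≤ 1 / 4 ∧
  0 < η ∧ η ≤ 1 ∧ 0 < ϑ ∧ ϑ ≤ 1 / 2 ^ 12 ∧ 0 < r ∧ r ≤ 1 / 64 ∧ e < 1 - r ∧ 2 ≤ R ∧ 0 < τ1 ∧
  e * (Real.sqrt 2 / (2 * Real.pi)) < Real.sqrt (cc r ϑ) / (1 + η) * (4 * (1 - 2 * ζ) / ϑ) *
    ((1 - η) ^ 2 * (ϑ / (8 * Real.pi)) - Real.sqrt (P0 ϑ η R) * ϑ) ∧
  ∀ (ρ : Measure ℝ) [IsProbabilityMeasure ρ], (∀ t : ℝ, Integrable (fun z => Real.exp (t * z)) ρ) →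
  (∀ q : ℝ, -1 ≤ q → q ≤ Q → Real.exp (ϑ * (q ^ 2 / 2 - q / 4) - τ1) ≤ Mo ρ q ∧
    Mo ρ q ≤ Real.exp (ϑ * (q ^ 2 / 2 - q / 4) + τ1)) →
  ∀ θ : ℝ, |θ - 1 / 2| ≤ τ1 → (1 - η) * Real.sqrt (ϑ / (8 * Real.pi)) ≤ QQ ρ θ (1 - θ) R R ∧
    QQ ρ θ (2 - 2 * θ) R R ≤ ϑ

/-- NLX: numerical conditions of the first level. -/
def T_NLX : Prop := ∀ (kl c0 e ζ η ϑ r τ1 : ℝ) (R Q J : ℕ), 0 < kl → 0 < c0 → 0 < e → 0 < ζ →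
  ζ ≤ 1 / 4 → 0 < η → η ≤ 1 → 0 < ϑ → ϑ ≤ 1 / 2 ^ 12 → 0 < r → r ≤ 1 / 64 → 0 < τ1 →
  e * (Real.sqrt 2 / (2 * Real.pi)) < Real.sqrt (cc r ϑ) / (1 + η) * (4 * (1 - 2 * ζ) / ϑ) *
    ((1 - η) ^ 2 * (ϑ / (8 * Real.pi)) - Real.sqrt (P0 ϑ η R) * ϑ) →
  ∃ (m : ℕ) (x0 : ℝ), 0 < x0 ∧ ∀ x : ℝ, 0 < x → x < x0 → ∀ α τ : ℝ, 1 - x ^ 4 ≤ α → α ≤ 1 →
  0 ≤ τ → τ ≤ x ^ 4 → ∀ n D : ℕ, n = ⌈bX c0 kl x ^ 2⌉₊ →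
  D = ⌈4 * bX c0 kl x * ((J : ℝ) + 1) / ϑ⌉₊ →
  kl * x ≤ 1 / 64 ∧ τ ≤ ϑ / 256 ∧ 0 < bX c0 kl x ∧ 8 ≤ bX c0 kl x * ζ ∧
  2 * (R : ℝ) + 1 ≤ 12 * bX c0 kl x / ϑ ∧ 2 ^ 9 * Real.sqrt (x ^ 4) * D ≤ r ∧
  D * (τ + Real.sqrt (x ^ 4)) ≤ ϑ / 32 ∧ 2 * R + D ≤ n ∧
  1 ≤ 4 * bX c0 kl x * (1 - 2 * ζ) / ϑ ∧ 1 ≤ n ∧ (n : ℝ) ≤ Real.exp (bX c0 kl x / 4) ∧
  4 * (D : ℝ) ≤ (1 / x) ^ m ∧ 4 * ((n : ℝ) * D) ^ 2 * Real.exp D ≤ Real.exp ((1 / x) ^ m) ∧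
  ϑ * Q * (kl * x) + τ ≤ τ1 ∧ ϑ * (kl * x) + τ ≤ τ1 ∧ |1 / (1 + α) - 1 / 2| ≤ τ1 ∧
  0 ≤ (1 - η) ^ 2 * (ϑ / (8 * Real.pi)) - Real.sqrt (Pb ϑ (bX c0 kl x) ζ η (kl * x) (x ^ 4) τ
    (ζ / (16 * ((J : ℝ) + 1))) n R D) * ϑ ∧
  ∀ j : ℕ, 3 ≤ j → j ≤ J → n * (aX c0 kl x * (e * Real.exp (-(c0 * ((j : ℝ) + 1))))) ≤
    cc r ϑ ^ (1 / (1 + α)) / (1 + η) *
    (((n : ℝ) - 2 * R - D) * (4 * bX c0 kl x * (1 - 2 * ζ) / ϑ - 1)) *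
    Real.exp (-((1 / 2 + x ^ 4) * (kl * x) * (4 * bX c0 kl x * ((j : ℝ) + 1))) - τ * D) *
    ((1 - η) ^ 2 * (ϑ / (8 * Real.pi)) - Real.sqrt (Pb ϑ (bX c0 kl x) ζ η (kl * x) (x ^ 4) τ
      (ζ / (16 * ((J : ℝ) + 1))) n R D) * ϑ)

/-- OBX: the boxes of the first level. -/
def T_OBX : Prop := ∀ (kl c0 e : ℝ) (J : ℕ), 0 < kl → 0 < c0 → 0 < e → e < 1 →
  ∃ ϑ r U : ℝ, 0 < ϑ ∧ ϑ ≤ 1 / 2 ^ 12 ∧ 0 < r ∧ r ≤ 1 / 64 ∧ e < 1 - r ∧ 3 ≤ U ∧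
  OBx ϑ r U kl c0 0 J (t0x c0 e J)

/-! ## E. The levels -/

/-- STX: one step. -/
def T_STX : Prop := ∀ (ϑ r U kl c0 e : ℝ) (l J ms : ℕ) (t : ℕ → ℝ), 0 < r → r ≤ 1 / 64 →
  0 < kl → 0 < c0 → 0 < e → e < 1 - r → 1 ≤ ms → OBx ϑ r U kl c0 l J t → (∀ j, 0 ≤ t j) →
  OBx ϑ r U kl c0 (l + 1) (ms * J) (nx t (l + 3) ms (e * (Lm kl * c0 ^ 2)) e)

/-- FNX: the final chain. -/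
def T_FNX : Prop := ∀ (ϑ r U kl c0 e : ℝ) (l J : ℕ) (t : ℕ → ℝ), 0 < r → r ≤ 1 / 64 →
  0 < kl → 0 < c0 → 0 < e → e < 1 - r → OBx ϑ r U kl c0 l J t → (∀ j, 0 ≤ t j) →
  1 < e * (Lm kl * c0 ^ 2) * ∑ j ∈ Finset.Icc (l + 3) J, t j →
  ∃ x0 : ℝ, 0 < x0 ∧ ∀ x : ℝ, 0 < x → x < x0 → ∀ (K : PMF ℕ) (ν : Measure ℝ) (α cK τ : ℝ)
  (k q : ℕ), LX K ν α cK x r ϑ kl τ U k q → ∃ (n : ℕ) (s' : ℝ), 1 ≤ n ∧ 0 < s' ∧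
  4 * n / ((1 - r) ^ 2 * x ^ 4 / 4) <
    s' * (iid ν).real {y : ℕ → ℝ | s' ≤ WB K k n y ^ (1 / (1 + α))}

/-- NU2X: the slope of the first level. -/
def T_NU2X : Prop := ∀ Λ : ℝ, 1 / 2 < Λ → ∃ c0 : ℝ, 0 < c0 ∧ ∃ N : ℕ,
  1 / 2 < Λ * c0 ^ 2 * ∑ U ∈ Finset.range N, U * Real.exp (-(c0 * ((U : ℝ) + 3)))

/-- NUSX: the levels without errors. -/
def T_NUSX : Prop := ∀ (c0 η : ℝ) (J ms l U : ℕ), 1 ≤ U → U + l + 2 ≤ J → U + l ≤ ms →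
  tlx c0 η 1 J ms l (U + l + 2) = Fl η (fun U => Real.exp (-(c0 * ((U : ℝ) + 3)))) l U

/-- NUCX: continuity. -/
def T_NUCX : Prop := ∀ (c0 η : ℝ) (J ms l j : ℕ),
  Continuous (fun e : ℝ => tlx c0 η e J ms l j) ∧
  (0 ≤ η → ∀ e : ℝ, 0 ≤ e → 0 ≤ tlx c0 η e J ms l j)

/-- NUMX: the numbers. -/
def T_NUMX : Prop := ∀ Λ : ℝ, 1 / 2 < Λ → ∃ c0 : ℝ, 0 < c0 ∧ ∃ (l ms J : ℕ), 1 ≤ ms ∧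
  ∃ e0 : ℝ, 0 < e0 ∧ e0 < 1 ∧ ∀ e : ℝ, e0 < e → e ≤ 1 →
    1 < e * (Λ * c0 ^ 2) * ∑ j ∈ Finset.Icc (l + 3) (ms ^ l * J),
      tlx c0 (Λ * c0 ^ 2) e J ms l j

/-- LFX: the final chain for every constant below `ks`. -/
def T_LFX : Prop := ∀ kl : ℝ, 0 < kl → kl < ks → ∃ ϑ r U x0 : ℝ, 0 < ϑ ∧ ϑ ≤ 1 / 2 ^ 12 ∧
  0 < r ∧ r ≤ 1 / 64 ∧ 3 ≤ U ∧ 0 < x0 ∧ ∀ x : ℝ, 0 < x → x < x0 → ∀ (K : PMF ℕ)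
  (ν : Measure ℝ) (α cK τ : ℝ) (k q : ℕ), LX K ν α cK x r ϑ kl τ U k q →
  ∃ (n : ℕ) (s' : ℝ), 1 ≤ n ∧ 0 < s' ∧ 4 * n / ((1 - r) ^ 2 * x ^ 4 / 4) <
    s' * (iid ν).real {y : ℕ → ℝ | s' ≤ WB K k n y ^ (1 / (1 + α))}

/-! ## F. The theorems -/

/-- PLM: the law of the charges and its tilt. -/
def T_PLM : Prop := ∀ (μ : Measure ℝ) [IsProbabilityMeasure μ],
  (∀ t : ℝ, Integrable (fun z => Real.exp (t * z)) μ) → ∫ z, z ∂μ = 0 → ∫ z, z ^ 2 ∂μ = 1 →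
  ∀ ϑ U : ℝ, 0 < ϑ → ϑ ≤ 1 → 0 < U → ∃ C lam0 : ℝ, 0 < C ∧ 0 < lam0 ∧ ∀ lam ε α : ℝ, 0 < lam →
  lam < lam0 → 0 ≤ ε → ε ≤ 1 / 8 → 1 / 2 ≤ α → α ≤ 1 →
  LM (chargeLaw μ lam ((3 / 4 + ε) * lam)) α ϑ ε (C * lam) U ⌈ϑ / lam ^ 2⌉₊

/-- LOX: lower bound, `α < 1`. -/
def T_LOX : Prop := ∀ e0 : ℝ, 0 < e0 → ∃ α0 : ℝ, α0 < 1 ∧ ∀ α : ℝ, α0 < α → α < 1 →
  ∀ (K : PMF ℕ), K 0 = 0 → ∀ cK : ℝ, 0 < cK →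
  Tendsto (fun n : ℕ => (K n).toReal * (n : ℝ) ^ (1 + α)) atTop (𝓝 cK) →
  ∀ (μ : Measure ℝ) [IsProbabilityMeasure μ],
  (∀ t : ℝ, Integrable (fun z => Real.exp (t * z)) μ) → ∫ z, z ∂μ = 0 → ∫ z, z ^ 2 ∂μ = 1 →
  ∀ᶠ lam in 𝓝[>] (0 : ℝ),
    3 / 4 + (ks - e0) * (1 - α) ^ (1 / 4 : ℝ) ≤ criticalCurve K μ lam / lam

/-- LOY: lower bound, `α = 1`. -/
def T_LOY : Prop := ∀ e0 : ℝ, 0 < e0 → ∀ (K : PMF ℕ), K 0 = 0 → ∀ cK : ℝ, 0 < cK →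
  Tendsto (fun n : ℕ => (K n).toReal * (n : ℝ) ^ (1 + (1 : ℝ))) atTop (𝓝 cK) →
  ∀ (μ : Measure ℝ) [IsProbabilityMeasure μ],
  (∀ t : ℝ, Integrable (fun z => Real.exp (t * z)) μ) → ∫ z, z ∂μ = 0 → ∫ z, z ^ 2 ∂μ = 1 →
  ∀ᶠ lam in 𝓝[>] (0 : ℝ),
    3 / 4 + (1 / (4 * Real.sqrt Real.pi) - e0) * Real.log (1 / lam) ^ (-(1 / 4) : ℝ) ≤
      criticalCurve K μ lam / lam

end Pool.Agent.H98.EX
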