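import Pool.Agent.H98.CE.All
import Pool.Agent.H98.CEU.All
import Pool.Agent.H98.SLN.All
import Pool.Agent.H98.EX.LTargets
import Pool.Agent.H1.EX.EXZ
import Pool.Agent.H1.EX.PF3
import Pool.Agent.H1.EX.REV
import Pool.Agent.H1.EX.WBA
import Pool.Agent.H10.EX.LOX
import Pool.Agent.H11.EX.VVX
import Pool.Agent.H12.EX.PCO
import Pool.Agent.H12.EX.PLX
import Pool.Agent.H12.EX.YGX
import Pool.Agent.H13.EX.CNX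
import Pool.Agent.H13.EX.QTB
import Pool.Agent.H14.EX.EXB
import Pool.Agent.H14.EX.SLX
import Pool.Agent.H17.EX.LLC
import Pool.Agent.H17.EX.QB1
import Pool.Agent.H17.EX.TEL
import Pool.Agent.H17.EX.TNG
import Pool.Agent.H19.EX.CBX
import Pool.Agent.H19.EX.MMX
import Pool.Agent.H19.EX.NCD
import Pool.Agent.H19.EX.PE0
import Pool.Agent.H19.EX.PE1
import Pool.Agent.H19.EX.RTX
import Pool.Agent.H19.EX.SHX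
import Pool.Agent.H19.EX.WXD
import Pool.Agent.H21.EX.DNP
import Pool.Agent.H21.EX.MSX
import Pool.Agent.H21.EX.SRX
import Pool.Agent.H25.EX.MPF
import Pool.Agent.H25.EX.SMX
import Pool.Agent.H27.EX.QQB
import Pool.Agent.H31.EX.ESX
import Pool.Agent.H31.EX.HF0
import Pool.Agent.H32.EX.KRX
import Pool.Agent.H32.EX.NUSX
import Pool.Agent.H36.EX.FHL
import Pool.Agent.H36.EX.MGL
import Pool.Agent.H36.EX.NAX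
import Pool.Agent.H38.EX.S1X
import Pool.Agent.H4.EX.UFX
import Pool.Agent.H40.EX.HFR
import Pool.Agent.H40.EX.NM2
import Pool.Agent.H44.EXA.PLM
import Pool.Agent.H46.EX.IDX
import Pool.Agent.H46.EX.NM1
import Pool.Agent.H46.EX.PC1
import Pool.Agent.H48.EX.NU2X
import Pool.Agent.H49.EX.BS2
import Pool.Agent.H49.EX.NUCX
import Pool.Agent.H49.EX.OBX
import Pool.Agent.H5.EX.SUX
import Pool.Agent.H51.EX.BAX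
import Pool.Agent.H51.EX.PR0
import Pool.Agent.H52.EX.LKX
import Pool.Agent.H55.EX.BF2
import Pool.Agent.H57.EX.FNX
import Pool.Agent.H63.EX.ABM
import Pool.Agent.H63.EX.MNG
import Pool.Agent.H64.EX.HKX
import Pool.Agent.H64.EX.HUP
import Pool.Agent.H67.EX.KRY
import Pool.Agent.H67.EX.UPX
import Pool.Agent.H67.EX.UPY
import Pool.Agent.H69.EX.UM2
import Pool.Agent.H69.EX.VAB
import Pool.Agent.H69.EX.WNX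
import Pool.Agent.H73.EX.CHX
import Pool.Agent.H73.EX.HFD
import Pool.Agent.H73.EX.NLX
import Pool.Agent.H75.EX.NUMX
import Pool.Agent.H75.EX.R1X
import Pool.Agent.H75.EX.YSM
import Pool.Agent.H76.EX.LOY
import Pool.Agent.H76.EX.PR1
import Pool.Agent.H77.EX.HFC
import Pool.Agent.H77.EX.VI2
import Pool.Agent.H78.EXA.SCX
import Pool.Agent.H79.EX.LLP
import Pool.Agent.H79.EX.UD2
import Pool.Agent.H8.EX.LFX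
import Pool.Agent.H8.EX.S2X
import Pool.Agent.H80.EX.NRX
import Pool.Agent.H80.EX.STX
import Pool.Agent.H85.EX.FCX
import Pool.Agent.H85.EX.NTM
import Pool.Agent.H89.EX.BDX
import Pool.Agent.H89.EX.QGB
import Pool.Agent.H90.EX.EGP
import Pool.Agent.H91.EX.BND
import Pool.Agent.H91.EX.SPX
import Pool.Agent.H92.EX.QCV
import Pool.Agent.H95.EXL.CHL
import Pool.Agent.H95.EXL.DNX
import Pool.Agent.H95.EXL.MUX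
import Pool.Agent.H96.EX.HLO

/-!
# The exact constant of the copolymer slope as `α → 1`: assembly (helper98)
-/

set_option autoImplicit false

open MeasureTheory ProbabilityTheory Filter Topology

namespace Pool.Agent.H98.EX

theorem c_EXB : T_EXB :=
  Pool.Agent.H98.EX.pf_EXB

theorem c_MPF : T_MPF :=
  Pool.Agent.H25.EX.pf_MPF Pool.Agent.H98.CEU.c_PFM c_EXB

theorem c_LLC : T_LLC :=
  Pool.Agent.H17.EX.pf_LLC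

theorem c_LLP : T_LLP :=
  Pool.Agent.H79.EX.pf_LLP Pool.Agent.H98.CEU.c_PFM c_EXB c_LLC

theorem c_ABM : T_ABM :=
  Pool.Agent.H63.EX.pf_ABM Pool.Agent.H98.CEU.c_PFM c_EXB c_MPF c_LLC c_LLP

theorem c_YSM : T_YSM :=
  Pool.Agent.H75.EX.pf_YSM

theorem c_MGL : T_MGL :=
  Pool.Agent.H36.EX.pf_MGL c_YSM

theorem c_YGX : T_YGX :=
  Pool.Agent.H12.EX.YGX.pf_YGX Pool.Agent.H98.SLN.c_UQB Pool.Agent.H98.SLN.c_LCB Pool.Agent.H98.SLN.c_VAR Pool.Agent.H98.SLN.c_MSL Pool.Agent.H98.SLN.c_FOU Pool.Agent.H98.SLN.c_LCM Pool.Agent.H98.SLN.c_MAS Pool.Agent.H98.SLN.c_TLQ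

theorem c_BDX : T_BDX :=
  Pool.Agent.H89.EX.pf_BDX Pool.Agent.H98.SLN.c_UQB Pool.Agent.H98.SLN.c_CMT Pool.Agent.H98.SLN.c_TLQ c_YSM c_YGX

theorem c_EXZ : T_EXZ :=
  Pool.Agent.H1.EX.pf_EXZ

theorem c_RTX : T_RTX :=
  Pool.Agent.H19.EX.pf_RTX c_EXZ

theorem c_SRX : T_SRX :=
  Pool.Agent.H21.EX.SR.pf_SRX

theorem c_WNX : T_WNX :=
  Pool.Agent.H69.EX.pf_WNX c_YSM

theorem c_BAX : T_BAX :=
  Pool.Agent.H51.EX.pf_BAX Pool.Agent.H98.SLN.c_SUR Pool.Agent.H98.SLN.c_TLQ Pool.Agent.H98.SLN.c_UQB c_YSM c_MGL c_BDX c_RTX c_SRX c_WNX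

theorem c_UD2 : T_UD2 :=
  Pool.Agent.H79.EX.pf_UD2 Pool.Agent.H98.CEU.c_PFD

theorem c_BF2 : T_BF2 :=
  Pool.Agent.H55.EX.pf_BF2 Pool.Agent.H98.CEU.c_PFM Pool.Agent.H98.CEU.c_BBX c_UD2

theorem c_BND : T_BND :=
  Pool.Agent.H91.EX.pf_BND

theorem c_VI2 : T_VI2 :=
  Pool.Agent.H77.EX.pf_VI2 Pool.Agent.H98.CEU.c_CCP Pool.Agent.H98.CEU.c_IND

theorem c_BS2 : T_BS2 :=
  Pool.Agent.H49.EX.pf_BS2 Pool.Agent.H98.CEU.c_CCP Pool.Agent.H98.CEU.c_IND c_VI2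

theorem c_CBX : T_CBX :=
  Pool.Agent.H19.EX.pf_CBX

theorem c_WBA : T_WBA :=
  Pool.Agent.H1.EX.pf_WBA

theorem c_REV : T_REV :=
  Pool.Agent.H1.EX.pf_REV

theorem c_TEL : T_TEL :=
  Pool.Agent.H17.EX.pf_TEL c_REV c_WBA

theorem c_QCV : T_QCV :=
  Pool.Agent.H92.EX.pf_QCV c_WBA

theorem c_HF0 : T_HF0 :=
  Pool.Agent.H31.EX.pf_HF0 c_WBA

theorem c_HFC : T_HFC :=
  Pool.Agent.H77.EX.pf_HFC c_WBA

theorem c_HFR : T_HFR :=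
  Pool.Agent.H40.EX.pf_HFR c_WBA

theorem c_HFD : T_HFD :=
  Pool.Agent.H73.EX.pf_HFD

theorem c_HUP : T_HUP :=
  Pool.Agent.H64.EX.pf_HUP c_WBA c_HFR c_HF0 c_HFD c_HFC

theorem c_HLO : T_HLO :=
  Pool.Agent.H96.EX.pf_HLO c_WBA c_HFR c_HF0 c_HFD c_HFC

theorem c_QQB : T_QQB :=
  Pool.Agent.H27.EX.pf_QQB c_WBA c_TEL c_QCV c_HF0 c_HFC c_HUP c_HLO

theorem c_CHL : T_CHL :=
  Pool.Agent.H95.EXL.pf_CHL c_QQB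

theorem c_CHX : T_CHX :=
  Pool.Agent.H73.EX.pf_CHX c_QQB c_WBA

theorem c_CNX : T_CNX :=
  Pool.Agent.H13.EX.pf_CNX

theorem c_NRX : T_NRX :=
  Pool.Agent.H80.EX.pf_NRX

theorem c_IDX : T_IDX :=
  Pool.Agent.H46.EX.pf_IDX Pool.Agent.H98.SLN.c_INR Pool.Agent.H98.SLN.c_CMT c_REV

theorem c_DNP : T_DNP :=
  Pool.Agent.H21.EX.DN.pf_DNP Pool.Agent.H98.SLN.c_TLQ Pool.Agent.H98.SLN.c_UQB c_YSM c_NRX c_IDX

theorem c_VVX : T_VVX :=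
  Pool.Agent.H11.EX.pf_VVX Pool.Agent.H98.SLN.c_RID Pool.Agent.H98.SLN.c_UUP Pool.Agent.H98.SLN.c_TLQ

theorem c_MMX : T_MMX :=
  Pool.Agent.H19.EX.pf_MMX Pool.Agent.H98.SLN.c_RID Pool.Agent.H98.SLN.c_UUP Pool.Agent.H98.SLN.c_TLQ c_VVX

theorem c_WXD : T_WXD :=
  Pool.Agent.H19.EX.pf_WXD c_MMX Pool.Agent.H98.SLN.c_PCJ Pool.Agent.H98.SLN.c_UQB Pool.Agent.H98.SLN.c_TLQ Pool.Agent.H98.CE.c_PCB

theorem c_SPX : T_SPX :=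
  Pool.Agent.H91.EX.pf_SPX c_NRX Pool.Agent.H98.SLN.c_TLQ

theorem c_MUX : T_MUX :=
  Pool.Agent.H95.EXL.pf_MUX Pool.Agent.H98.SLN.c_TLQ c_YSM c_MGL c_WXD

theorem c_DNX : T_DNX :=
  Pool.Agent.H95.EXL.pf_DNX Pool.Agent.H98.SLN.c_TLQ c_YSM c_MGL c_WXD c_SPX c_BAX c_DNP c_CNX c_MUX

theorem c_EGP : T_EGP :=
  Pool.Agent.H90.EX.pf_EGP

theorem c_ESX : T_ESX :=
  Pool.Agent.H31.EX.pf_ESX

theorem c_NAX : T_NAX :=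
  Pool.Agent.H36.EX.pf_NAX

theorem c_FCX : T_FCX :=
  Pool.Agent.H85.EX.pf_FCX Pool.Agent.H98.CEU.c_PFM Pool.Agent.H98.CEU.c_LNK Pool.Agent.H98.CEU.c_STR Pool.Agent.H98.CEU.c_WPF c_NAX

theorem c_FHL : T_FHL :=
  Pool.Agent.H36.EX.pf_FHL

theorem c_HKX : T_HKX :=
  Pool.Agent.H64.EX.pf_HKX Pool.Agent.H98.SLN.c_UUP Pool.Agent.H98.SLN.c_TLQ

theorem c_FNX : T_FNX :=
  Pool.Agent.H57.EX.pf_FNX c_HKX Pool.Agent.H98.SLN.c_TLQ Pool.Agent.H98.CE.c_CHF Pool.Agent.H98.CE.c_AS1 Pool.Agent.H98.CE.c_AS2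

theorem c_KRX : T_KRX :=
  Pool.Agent.H32.EX.pf_KRX

theorem c_KRY : T_KRY :=
  Pool.Agent.H67.EX.pf_KRY

theorem c_NU2X : T_NU2X :=
  Pool.Agent.H48.EX.pf_NU2X

theorem c_NUSX : T_NUSX :=
  Pool.Agent.H32.EX.pf_NUSX

theorem c_NUCX : T_NUCX :=
  Pool.Agent.H49.EX.pf_NUCX Pool.Agent.H98.CE.c_CVM

theorem c_NUMX : T_NUMX :=
  Pool.Agent.H75.EX.pf_NUMX Pool.Agent.H98.CE.c_BUP c_NU2X c_NUSX c_NUCX

theorem c_NLX : T_NLX :=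
  Pool.Agent.H73.EX.pf_NLX

theorem c_OBX : T_OBX :=
  Pool.Agent.H49.EX.pf_OBX Pool.Agent.H98.SLN.c_TLQ c_YSM c_CHL c_NLX c_WXD c_DNX c_MUX

theorem c_STX : T_STX :=
  Pool.Agent.H80.EX.pf_STX c_HKX Pool.Agent.H98.SLN.c_TLQ Pool.Agent.H98.CE.c_STP Pool.Agent.H98.CE.c_OMN Pool.Agent.H98.CE.c_AS1 Pool.Agent.H98.CE.c_AS2

theorem c_LFX : T_LFX :=
  Pool.Agent.H8.EX.pf_LFX c_NUMX c_NUCX c_OBX c_STX c_FNX

theorem c_LKX : T_LKX :=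
  Pool.Agent.H52.EX.pf_LKX Pool.Agent.H98.SLN.c_ULK

theorem c_PLX : T_PLX :=
  Pool.Agent.H12.EX.PLX.pf_PLX

theorem c_PLM : T_PLM :=
  Pool.Agent.H98.EX.pf_PLM c_PLX Pool.Agent.H98.SLN.c_MOQ

theorem c_LOX : T_LOX :=
  Pool.Agent.H10.EX.pf_LOX Pool.Agent.H98.CE.c_END Pool.Agent.H98.SLN.c_TLQ c_KRX c_PLM c_HKX c_LFX

theorem c_LOY : T_LOY :=
  Pool.Agent.H76.EX.pf_LOY Pool.Agent.H98.CE.c_END Pool.Agent.H98.SLN.c_TLQ c_KRY c_PLM c_HKX c_LFX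

theorem c_TNG : T_TNG :=
  Pool.Agent.H17.EX.pf_TNG

theorem c_PCO : T_PCO :=
  Pool.Agent.H12.EX.PCO.pf_PCO

theorem c_MSX : T_MSX :=
  Pool.Agent.H21.EX.pf_MSX Pool.Agent.H98.SLN.c_RID Pool.Agent.H98.SLN.c_WIN Pool.Agent.H98.SLN.c_USP

theorem c_PE0 : T_PE0 :=
  Pool.Agent.H19.EX.pf_PE0 Pool.Agent.H98.CEU.c_PFM c_EXB c_MPF c_MSX

theorem c_PC1 : T_PC1 :=
  Pool.Agent.H46.EX.pf_PC1

theorem c_PR0 : T_PR0 :=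
  Pool.Agent.H51.EX.pf_PR0 c_PCO c_EGP c_PE0 c_PC1

theorem c_PF3 : T_PF3 :=
  Pool.Agent.H1.EX.pf_PF3

theorem c_NCD : T_NCD :=
  Pool.Agent.H19.EX.pf_NCD c_PF3

theorem c_VAB : T_VAB :=
  Pool.Agent.H69.EX.pf_VAB

theorem c_PE1 : T_PE1 :=
  Pool.Agent.H19.EX.pf_PE1 Pool.Agent.H98.CEU.c_PFM c_NCD c_MPF c_VAB c_ABM c_MSX

theorem c_PR1 : T_PR1 :=
  Pool.Agent.H76.EX.pf_PR1 c_REV c_YSM c_WBA c_PCO c_EGP c_PE1 c_PC1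

theorem c_MNG : T_MNG :=
  Pool.Agent.H63.EX.pf_MNG Pool.Agent.H98.CEU.c_PFM Pool.Agent.H98.CEU.c_CCT c_TNG c_FHL c_BND c_PR0 c_PR1

theorem c_NM1 : T_NM1 :=
  Pool.Agent.H46.EX.pf_NM1

theorem c_NM2 : T_NM2 :=
  Pool.Agent.H40.EX.pf_NM2

theorem c_NTM : T_NTM :=
  Pool.Agent.H85.EX.pf_NTM Pool.Agent.H98.CEU.c_PFM c_MSX

theorem c_QB1 : T_QB1 :=
  Pool.Agent.H17.EX.pf_QB1 Pool.Agent.H98.CEU.c_PFM Pool.Agent.H98.CEU.c_BBX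

theorem c_QGB : T_QGB :=
  Pool.Agent.H89.EX.pf_QGB Pool.Agent.H98.CEU.c_PFM Pool.Agent.H98.CEU.c_CCT Pool.Agent.H98.CEU.c_GLO Pool.Agent.H98.CEU.c_PHI c_UD2 c_BF2 c_BS2 c_NTM c_LKX c_MNG c_NAX

theorem c_UM2 : T_UM2 :=
  Pool.Agent.H69.EX.pf_UM2 Pool.Agent.H98.CEU.c_PFM Pool.Agent.H98.CEU.c_REX c_UD2

theorem c_QTB : T_QTB :=
  Pool.Agent.H13.EX.pf_QTB Pool.Agent.H98.CEU.c_PFM c_UM2 c_QB1 c_NTM c_LKX c_NAX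

theorem c_R1X : T_R1X :=
  Pool.Agent.H75.EX.pf_R1X Pool.Agent.H98.CEU.c_PFM Pool.Agent.H98.CEU.c_LNK Pool.Agent.H98.CEU.c_STR c_NAX

theorem c_SUX : T_SUX :=
  Pool.Agent.H5.EX.pf_SUX

theorem c_SHX : T_SHX :=
  Pool.Agent.H19.EX.pf_SHX

theorem c_SLX : T_SLX :=
  Pool.Agent.H98.EX.pf_SLX Pool.Agent.H98.CEU.c_PFM Pool.Agent.H98.CEU.c_HFT c_NAX

theorem c_SMX : T_SMX :=
  Pool.Agent.H25.EX.pf_SMX Pool.Agent.H98.CEU.c_PFM Pool.Agent.H98.CEU.c_HFT Pool.Agent.H98.CEU.c_GLO c_NAX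

theorem c_S1X : T_S1X :=
  Pool.Agent.H38.EX.pf_S1X Pool.Agent.H98.CEU.c_PFM Pool.Agent.H98.CEU.c_INS Pool.Agent.H98.CEU.c_CCT Pool.Agent.H98.CEU.c_ASP Pool.Agent.H98.CEU.c_LNK Pool.Agent.H98.CEU.c_KHT c_SUX c_SHX c_ESX c_CBX c_NAX c_SLX c_SMX

theorem c_S2X : T_S2X :=
  Pool.Agent.H8.EX.pf_S2X Pool.Agent.H98.CEU.c_PFM Pool.Agent.H98.CEU.c_INS Pool.Agent.H98.CEU.c_CCP Pool.Agent.H98.CEU.c_CCT Pool.Agent.H98.CEU.c_HFT Pool.Agent.H98.CEU.c_PHI Pool.Agent.H98.CEU.c_ASP Pool.Agent.H98.CEU.c_LNK Pool.Agent.H98.CEU.c_KHT c_SUX c_SHX c_ESX c_CBX c_NAX c_SLX c_SMX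

theorem c_SCX : T_SCX :=
  Pool.Agent.H78.EXA.pf_SCX Pool.Agent.H98.CEU.c_PFM Pool.Agent.H98.CEU.c_HFT Pool.Agent.H98.CEU.c_LYA c_R1X c_S1X c_S2X

theorem c_UFX : T_UFX :=
  Pool.Agent.H4.EX.pf_UFX c_SCX c_FCX c_QTB c_QGB c_CHX c_NM1 c_NM2 c_YSM

theorem c_UPX : T_UPX :=
  Pool.Agent.H67.EX.pf_UPX Pool.Agent.H98.CEU.c_NEG Pool.Agent.H98.SLN.c_MOH c_UFX c_PLX c_KRX

theorem c_UPY : T_UPY :=
  Pool.Agent.H67.EX.pf_UPY Pool.Agent.H98.CEU.c_NEG Pool.Agent.H98.SLN.c_MOH c_UFX c_PLX c_KRY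

end Pool.Agent.H98.EX
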