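import Pool.Agent.H98.EX.PDefs

/-!
# The exact constant of the copolymer slope as `α → 1`: the base of the upper half (helper98)

Boxes of `n0` cells of `k` sites. `θ = te α s`. Excursions of more than `k` sites are long.
-/

set_option autoImplicit false

open MeasureTheory ProbabilityTheory Filter Topology
open scoped ENNReal
open Pool.Agent.H95 Pool.Agent.H95.Cop
open Pool.Agent.H96.Cop (ex pk)
open Pool.Agent.H99.CE (NX w0 w1 BX CT TT Cc)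
open Pool.Agent.H98.SLN (gl TS)

namespace Pool.Agent.H98.EX

/-- moments of the neutral stretches from cell `0` to cell `e` -/
noncomputable def fn (K : PMF ℕ) (k : ℕ) (ν : Measure ℝ) (θ : ℝ) (e : ℕ) : ℝ≥0∞ :=
  ∑ p : Bool, ∑ r : Bool, ∫⁻ x, NX (w0 K k k) k p r e x ^ θ ∂(iid ν)

/-- moments of all stretches from cell `0` to cell `e` -/
noncomputable def yn (K : PMF ℕ) (k B : ℕ) (ν : Measure ℝ) (θ : ℝ) (e : ℕ) : ℝ≥0∞ :=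
  ∑ p : Bool, ∫⁻ x, NX (w1 K B) k p false e x ^ θ ∂(iid ν)

/-- links above the interface, at most `n0` cells -/
noncomputable def gx (α c : ℝ) (k n0 D : ℕ) : ℝ≥0∞ :=
  if D ≤ n0 then ENNReal.ofReal (gl α c k D) else 0

/-- links below the interface -/
noncomputable def gy (α c : ℝ) (k D : ℕ) : ℝ≥0∞ := ENNReal.ofReal (gl α c k D)

/-- recursion of the chains with long excursions of two kinds -/
structure B2 (k L : ℕ) (N : Bool → Bool → ℕ → (ℕ → ℝ) → ℝ≥0∞) (ga gb : ℕ → ℝ≥0∞)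
    (T : Finset ℕ) (V : Bool → ℕ → (ℕ → ℝ) → ℝ≥0∞) : Prop where
  mN : ∀ p r a, Measurable (N p r a) ∧ DepLt ((a + 1) * k) (N p r a) ∧ ∀ x, N p r a x ≠ ∞
  mV : ∀ p a, Measurable (V p a)
  recV : ∀ p, ∀ a < L, ∀ x, V p a x ≤ (∑ c ∈ T, if a ≤ c then N p false (c - a) x else 0) +
    ∑ i ∈ Finset.range (L - a), ∑ D ∈ Finset.Icc 1 (L - 1 - a - i),
      (N p false i x * (ga D * V false (a + i + D) (shift ((i + D) * k) x)) +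
       N p true i x * (gb D * ex ((i + 1) * k) ((i + D) * k) x *
         V true (a + i + D) (shift ((i + D) * k) x)))

/-- hypotheses of the induction over the cells -/
structure BV (ν : Measure ℝ) (k n0 J : ℕ) (N : Bool → Bool → ℕ → (ℕ → ℝ) → ℝ≥0∞)
    (ga gb : ℕ → ℝ≥0∞) (V : ℕ → Bool → ℕ → (ℕ → ℝ) → ℝ≥0∞) (φ : ℝ≥0∞ → ℝ≥0∞) (θ : ℝ)
    (u un : ℝ≥0∞ → ℝ≥0∞) (Es Eu qq qu v w : ℝ≥0∞) : Prop where
  k1 : 1 ≤ k
  n1 : 1 ≤ n0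
  ch : ∀ j < J, B2 k (J * n0) N ga gb (TT n0 j) (V j)
  fa : ∀ D, ga D ≠ ∞
  fb : ∀ D, gb D ≠ ∞
  cc : Cc φ
  θ0 : 0 < θ
  θ1 : θ < 1
  mu : Measurable u
  mun : Measurable un
  hφ : ∀ z y, z ≠ ∞ → y ≠ ∞ → φ (z * y) ≤ (z * y) ^ θ * (u z + un y)
  hu : ∀ z y, z ≠ ∞ → y ≠ ∞ → u (z * y) ≤ u z + u y
  hE : ∀ p, ∑ c ∈ Finset.range (J * n0), ∫⁻ x, N p false c x ^ θ ∂(iid ν) ≤ Es
  hEu : ∀ p, ∑ c ∈ Finset.range (J * n0), ∫⁻ x, N p false c x ^ θ * un (N p false c x) ∂(iid ν) ≤ Eu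
  hq : ∀ p, ∑ i ∈ Finset.range (J * n0), ∑ D ∈ Finset.Icc 1 (J * n0),
    (∫⁻ x, (N p false i x * ga D) ^ θ ∂(iid ν) +
      ∫⁻ x, (N p true i x * (gb D * ex ((i + 1) * k) ((i + D) * k) x)) ^ θ ∂(iid ν)) ≤ qq
  hqu : ∀ p, ∑ i ∈ Finset.range (J * n0), ∑ D ∈ Finset.Icc 1 (J * n0),
    (∫⁻ x, (N p false i x * ga D) ^ θ * u (N p false i x * ga D) ∂(iid ν) +
      ∫⁻ x, (N p true i x * (gb D * ex ((i + 1) * k) ((i + D) * k) x)) ^ θ *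
        u (N p true i x * (gb D * ex ((i + 1) * k) ((i + D) * k) x)) ∂(iid ν)) ≤ qu
  hv : Es + qq * v ≤ v
  hw : Eu + qu * v + qq * w ≤ w

/-- the pair of cells is not close to a boundary -/
def In (R n0 c c' : ℕ) : Prop :=
  R ≤ c ∧ c + R < n0 ∧ R ≤ c' % n0 ∧ c' % n0 + R < n0 ∧ c + 2 * R ≤ c'

/-- two-sided sum at the first cell `c` of a stretch -/
noncomputable def NL (R : ℕ) (y : ℕ → ℝ) (c : ℕ) : ℝ :=
  1 + VR R (shift c y) + VL R (fun j => y (c - 1 - j))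

/-- two-sided sum at the last cell `c` of a stretch -/
noncomputable def NR (R : ℕ) (y : ℕ → ℝ) (c : ℕ) : ℝ :=
  1 + VR R (fun j => y (c - j)) + VL R (shift (c + 1) y)

/-- decay rate per cell of the moments of order `θ` -/
noncomputable def kap (ϑ ε θ τ δ : ℝ) : ℝ := ϑ * θ * (1 / 4 + ε - θ / 2) - 3 * τ - 64 * δ

/-- sum of the links -/
noncomputable def La (ϑ : ℝ) (n0 : ℕ) : ℝ := 4 + Real.log n0 + Real.log (16 / ϑ)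

/-- the constant of the two ends -/
noncomputable def Q2 (ρ : Measure ℝ) (ϑ θ τ : ℝ) (R : ℕ) : ℝ :=
  (QQ ρ θ (1 - θ) R R + Real.sqrt (Real.exp (2 * ce ϑ (2 * τ) R) - 1) *
    Real.sqrt (QQ ρ θ (2 * (1 - θ)) R R)) ^ 2

/-- the conditions of the base -/
structure BC (K : PMF ℕ) (ν : Measure ℝ) (α c δ r ϑ ε τ ω s : ℝ) (k q : ℕ) : Prop where
  rx : RX K α c δ r k q
  eg : EG ν k ϑ ε τ 3
  ε0 : 0 ≤ ε
  s0 : 0 < s
  t1 : 1 / 2 ≤ te α s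
  t2 : te α (2 * s) ≤ 5 / 8
  ϑ0 : 0 < ϑ
  ϑ1 : ϑ ≤ 1 / 64
  ω0 : 0 < ω
  ω1 : ω ≤ 1
  ϑω : ϑ ≤ ω / 64
  σω : |te α s - 1 / 2 - ε| ≤ ω / 64
  τ0 : 0 ≤ τ
  τω : 2 * τ ≤ ω ^ 2 * ϑ / 2 ^ 10
  rϑ : r ≤ ϑ / 8
  δϑ : δ ≤ ϑ / 16
  kϑ : 16 ≤ ϑ * k
  κ1 : 0 < kap ϑ ε (te α s) τ δ
  κ2 : 0 < kap ϑ ε (te α (2 * s)) τ δ

/-- bound of the logarithmic moment of the base; `κ`, `κ'` decay rates, `ρ'` the difference of the
two exponents -/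
noncomputable def GB (δ ϑ ω κ κ' ρ' Qv : ℝ) (R n0 : ℕ) : ℝ :=
  (1 + 8 * ϑ) * (1 + ϑ) ^ 3 * Real.sqrt (δ / 2) * (Qv * (ad ϑ ω / κ ^ 2 + 4 / κ) +
    Real.exp (2 * R + 9) / κ + 4 * R / n0 * (ad ϑ ω / κ ^ 2 + 40 / κ) +
    2 * R * (2 * R * ad ϑ ω + 40)) +
  40 * δ * La ϑ n0 * (6 / (ρ' * κ * κ') + 16 / κ ^ 2)

/-! ## Choices for small `x = δ ^ (1 / 4)` -/

/-- step -/
noncomputable def hx (x : ℝ) : ℝ := (Real.log (1 / x))⁻¹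

/-- ratio of two scales -/
noncomputable def Mx (x : ℝ) : ℕ := ⌈Real.exp (hx x / x)⌉₊

/-- number of steps -/
noncomputable def Jx (x : ℝ) : ℕ := ⌈Real.log (1 / x) ^ 2⌉₊

/-- cells in the first box -/
noncomputable def nx0 (x : ℝ) : ℕ := ⌈Real.exp (x ^ (-(1 / 2) : ℝ))⌉₊

/-- bound of `(B / k) ^ s` -/
noncomputable def Xx (ς x : ℝ) : ℝ := ((Mx x ^ Jx x * nx0 x : ℕ) : ℝ) ^ (ς * x)

/-- the critical constant `2 ^ (-7/4) π ^ (-1/2)` -/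
noncomputable def ks : ℝ := (8 * Real.sqrt 2 * Real.pi) ^ (-(1 / 2) : ℝ)

end Pool.Agent.H98.EX
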