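import Pool.Agent.H98.EX.LTargets

/-!
# The exact constant of the copolymer slope as `α → 1`: the final statement (helper98)
-/

set_option autoImplicit false

open MeasureTheory ProbabilityTheory Filter Topology
open Pool.Agent.H95 Pool.Agent.H95.Cop

namespace Pool.Agent.H98.EX

lemma ks_eq : ks = 1 / Real.sqrt (8 * Real.sqrt 2 * Real.pi) := by
  unfold ks
  have h : (0 : ℝ) ≤ 8 * Real.sqrt 2 * Real.pi := by positivity
  rw [Real.rpow_neg h, ← Real.sqrt_eq_rpow, one_div]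

/-- the two parts of the theorem from its four halves -/
theorem fin_of (hLOX : T_LOX) (hUPX : T_UPX) (hLOY : T_LOY) (hUPY : T_UPY) :
    (∀ ε : ℝ, 0 < ε → ∃ α₀ : ℝ, α₀ < 1 ∧ ∀ α : ℝ, α₀ < α → α < 1 → ∀ K : PMF ℕ, K 0 = 0 →
      ∀ cK : ℝ, 0 < cK →
      Tendsto (fun n : ℕ => (K n).toReal * (n : ℝ) ^ (1 + α)) atTop (𝓝 cK) →
      ∀ (μ : Measure ℝ) [IsProbabilityMeasure μ],
      (∀ t : ℝ, Integrable (fun z => Real.exp (t * z)) μ) → ∫ z, z ∂μ = 0 →
      ∫ z, z ^ 2 ∂μ = 1 →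
      (∀ᶠ lam in 𝓝[>] (0 : ℝ),
        |(criticalCurve K μ lam / lam - 3 / 4) / (1 - α) ^ (1 / 4 : ℝ) -
          1 / Real.sqrt (8 * Real.sqrt 2 * Real.pi)| ≤ ε) ∧
      ∀ m : ℝ, Tendsto (fun lam => criticalCurve K μ lam / lam) (𝓝[>] 0) (𝓝 m) →
        |(m - 3 / 4) / (1 - α) ^ (1 / 4 : ℝ) - 1 / Real.sqrt (8 * Real.sqrt 2 * Real.pi)| ≤ ε) ∧
    ∀ K : PMF ℕ, K 0 = 0 → ∀ cK : ℝ, 0 < cK →
      Tendsto (fun n : ℕ => (K n).toReal * (n : ℝ) ^ 2) atTop (𝓝 cK) →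
      ∀ (μ : Measure ℝ) [IsProbabilityMeasure μ],
      (∀ t : ℝ, Integrable (fun z => Real.exp (t * z)) μ) → ∫ z, z ∂μ = 0 →
      ∫ z, z ^ 2 ∂μ = 1 →
      Tendsto (fun lam => (criticalCurve K μ lam / lam - 3 / 4) *
        Real.log (1 / lam) ^ (1 / 4 : ℝ)) (𝓝[>] 0) (𝓝 (1 / (4 * Real.sqrt Real.pi))) := by
  rw [← ks_eq]
  constructor
  · intro ε hε
    obtain ⟨α0, hα0, h1⟩ := hLOX ε hε
    obtain ⟨α1, hα1, h2⟩ := hUPX ε hε
    refine ⟨max α0 α1, max_lt hα0 hα1, ?_⟩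
    intro α hα hα' K hK0 cK hcK hK μ _ hexp hmean hvar
    have hx : 0 < (1 - α) ^ (1 / 4 : ℝ) := Real.rpow_pos_of_pos (by linarith) _
    have hev : ∀ᶠ lam in 𝓝[>] (0 : ℝ),
        |(criticalCurve K μ lam / lam - 3 / 4) / (1 - α) ^ (1 / 4 : ℝ) - ks| ≤ ε := by
      filter_upwards [h1 α (lt_of_le_of_lt (le_max_left _ _) hα) hα' K hK0 cK hcK hK μ hexp
        hmean hvar, h2 α (lt_of_le_of_lt (le_max_right _ _) hα) hα' K hK0 cK hcK hK μ hexp hmean
        hvar] with lam g1 g2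
      rw [abs_le]
      constructor
      · have : ks - ε ≤ (criticalCurve K μ lam / lam - 3 / 4) / (1 - α) ^ (1 / 4 : ℝ) := by
          rw [le_div_iff₀ hx]
          linarith
        linarith
      · have : (criticalCurve K μ lam / lam - 3 / 4) / (1 - α) ^ (1 / 4 : ℝ) ≤ ks + ε := by
          rw [div_le_iff₀ hx]
          linarith
        linarith
    refine ⟨hev, ?_⟩
    intro m hm
    have ht : Tendsto (fun lam => |(criticalCurve K μ lam / lam - 3 / 4) /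
        (1 - α) ^ (1 / 4 : ℝ) - ks|) (𝓝[>] 0) (𝓝 |(m - 3 / 4) / (1 - α) ^ (1 / 4 : ℝ) - ks|) :=
      (((hm.sub_const _).div_const _).sub_const _).abs
    exact le_of_tendsto ht hev
  · intro K hK0 cK hcK hK μ _ hexp hmean hvar
    have hK' : Tendsto (fun n : ℕ => (K n).toReal * (n : ℝ) ^ (1 + (1 : ℝ))) atTop (𝓝 cK) := by
      have hfun : (fun n : ℕ => (K n).toReal * (n : ℝ) ^ (1 + (1 : ℝ))) =
          fun n : ℕ => (K n).toReal * (n : ℝ) ^ 2 := by
        funext n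
        have h2 : (1 : ℝ) + 1 = ((2 : ℕ) : ℝ) := by norm_num
        rw [h2, Real.rpow_natCast]
      rw [hfun]
      exact hK
    have hinv : Tendsto (fun lam : ℝ => 1 / lam) (𝓝[>] 0) atTop := by
      have h := tendsto_inv_nhdsGT_zero (𝕜 := ℝ)
      simpa [one_div] using h
    have hlog : Tendsto (fun lam : ℝ => Real.log (1 / lam)) (𝓝[>] 0) atTop :=
      Real.tendsto_log_atTop.comp hinv
    rw [Metric.tendsto_nhds]
    intro ε hε
    filter_upwards [hLOY (ε / 2) (by positivity) K hK0 cK hcK hK' μ hexp hmean hvar,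
      hUPY (ε / 2) (by positivity) K hK0 cK hcK hK' μ hexp hmean hvar,
      hlog.eventually (eventually_gt_atTop 0)] with lam g1 g2 g3
    have hL : Real.log (1 / lam) ^ (-(1 / 4) : ℝ) * Real.log (1 / lam) ^ (1 / 4 : ℝ) = 1 := by
      rw [← Real.rpow_add g3]
      norm_num
    have hLp : 0 < Real.log (1 / lam) ^ (1 / 4 : ℝ) := Real.rpow_pos_of_pos g3 _
    set L := Real.log (1 / lam) ^ (1 / 4 : ℝ) with hLdef
    set L' := Real.log (1 / lam) ^ (-(1 / 4) : ℝ) with hLdef'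
    set S := criticalCurve K μ lam / lam with hS
    have a1 : (1 / (4 * Real.sqrt Real.pi) - ε / 2) ≤ (S - 3 / 4) * L := by
      have := mul_le_mul_of_nonneg_right (show (1 / (4 * Real.sqrt Real.pi) - ε / 2) * L' ≤
        S - 3 / 4 by linarith) hLp.le
      calc (1 / (4 * Real.sqrt Real.pi) - ε / 2) =
          (1 / (4 * Real.sqrt Real.pi) - ε / 2) * L' * L := by rw [mul_assoc, hL, mul_one]
        _ ≤ _ := this
    have a2 : (S - 3 / 4) * L ≤ (1 / (4 * Real.sqrt Real.pi) + ε / 2) := by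
      have := mul_le_mul_of_nonneg_right (show S - 3 / 4 ≤
        (1 / (4 * Real.sqrt Real.pi) + ε / 2) * L' by linarith) hLp.le
      calc (S - 3 / 4) * L ≤ (1 / (4 * Real.sqrt Real.pi) + ε / 2) * L' * L := this
        _ = (1 / (4 * Real.sqrt Real.pi) + ε / 2) := by rw [mul_assoc, hL, mul_one]
    rw [Real.dist_eq, abs_lt]
    constructor <;> linarith

end Pool.Agent.H98.EX
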