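import Pool.Agent.H98.EX.All
import Pool.Agent.H98.EX.Fin

/-!
# The exact constant of the copolymer slope as `α → 1`: the two theorems (helper98)
-/

set_option autoImplicit false

open MeasureTheory ProbabilityTheory Filter Topology
open Pool.Agent.H95 Pool.Agent.H95.Cop

namespace Pool.Agent.H98.EX

/-- the second term determines the first -/
theorem tend_of {S L : ℝ → ℝ} {c a : ℝ} (h : Tendsto (fun lam => (S lam - c) * L lam) (𝓝[>] 0) (𝓝 a))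
    (hL : Tendsto L (𝓝[>] 0) atTop) : Tendsto S (𝓝[>] 0) (𝓝 c) := by
  have h1 : Tendsto (fun lam => (S lam - c) * L lam * (L lam)⁻¹) (𝓝[>] 0) (𝓝 (a * 0)) :=
    h.mul (tendsto_inv_atTop_zero.comp hL)
  rw [mul_zero] at h1
  have h2 : Tendsto (fun lam => S lam - c) (𝓝[>] 0) (𝓝 0) := by
    refine h1.congr' ?_
    filter_upwards [hL.eventually (eventually_gt_atTop 0)] with lam hl
    rw [mul_assoc, mul_inv_cancel₀ hl.ne', mul_one]
  have h3 := h2.add_const c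
  simpa using h3

theorem log_pow_tend : Tendsto (fun lam : ℝ => Real.log (1 / lam) ^ (1 / 4 : ℝ)) (𝓝[>] 0) atTop := by
  have hinv : Tendsto (fun lam : ℝ => 1 / lam) (𝓝[>] 0) atTop := by
    have h := tendsto_inv_nhdsGT_zero (𝕜 := ℝ)
    simpa [one_div] using h
  exact (tendsto_rpow_atTop (by norm_num : (0 : ℝ) < 1 / 4)).comp
    (Real.tendsto_log_atTop.comp hinv)

/-- the case `α < 1` -/
theorem near_one :
    ∀ ε : ℝ, 0 < ε → ∃ α₀ : ℝ, α₀ < 1 ∧ ∀ α : ℝ, α₀ < α → α < 1 → ∀ K : PMF ℕ, K 0 = 0 →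
      ∀ cK : ℝ, 0 < cK →
      Tendsto (fun n : ℕ => (K n).toReal * (n : ℝ) ^ (1 + α)) atTop (𝓝 cK) →
      ∀ (μ : Measure ℝ) [IsProbabilityMeasure μ],
      (∀ t : ℝ, Integrable (fun z => Real.exp (t * z)) μ) → ∫ z, z ∂μ = 0 →
      ∫ z, z ^ 2 ∂μ = 1 →
      (∀ᶠ lam in 𝓝[>] (0 : ℝ),
        |(criticalCurve K μ lam / lam - 3 / 4) / (1 - α) ^ (1 / 4 : ℝ) -
          1 / Real.sqrt (8 * Real.sqrt 2 * Real.pi)| ≤ ε) ∧
      ∀ m : ℝ, Tendsto (fun lam => criticalCurve K μ lam / lam) (𝓝[>] 0) (𝓝 m) →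
        |(m - 3 / 4) / (1 - α) ^ (1 / 4 : ℝ) - 1 / Real.sqrt (8 * Real.sqrt 2 * Real.pi)| ≤ ε :=
  (fin_of c_LOX c_UPX c_LOY c_UPY).1

/-- the case `α = 1` -/
theorem at_one :
    ∀ K : PMF ℕ, K 0 = 0 → ∀ cK : ℝ, 0 < cK →
      Tendsto (fun n : ℕ => (K n).toReal * (n : ℝ) ^ 2) atTop (𝓝 cK) →
      ∀ (μ : Measure ℝ) [IsProbabilityMeasure μ],
      (∀ t : ℝ, Integrable (fun z => Real.exp (t * z)) μ) → ∫ z, z ∂μ = 0 →
      ∫ z, z ^ 2 ∂μ = 1 →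
      Tendsto (fun lam => criticalCurve K μ lam / lam) (𝓝[>] 0) (𝓝 (3 / 4)) ∧
      Tendsto (fun lam => (criticalCurve K μ lam / lam - 3 / 4) *
        Real.log (1 / lam) ^ (1 / 4 : ℝ)) (𝓝[>] 0) (𝓝 (1 / (4 * Real.sqrt Real.pi))) := by
  intro K hK0 cK hcK hK μ _ hexp hmean hvar
  have h := (fin_of c_LOX c_UPX c_LOY c_UPY).2 K hK0 cK hcK hK μ hexp hmean hvar
  exact ⟨tend_of h log_pow_tend, h⟩

end Pool.Agent.H98.EX
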