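import Pool.Agent.H98.SLN.Targets

/-!
# The exact constant of the copolymer slope as `α → 1`, upper half: the scales (helper98)

Problem `MP_65efe8_pr`. As `Pool.Agent.H99.CE.Defs`, with the exponent `te α s = (1 + s) / (1 + α)`
and a free unit `e` of the moments (`1 / e` is the unit of the logarithms of the scales).
-/

set_option autoImplicit false

open MeasureTheory ProbabilityTheory Filter Topology
open scoped ENNReal
open Pool.Agent.H95 Pool.Agent.H95.Cop Pool.Agent.H96.Cop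
open Pool.Agent.H99.CE (BX w1 cq tb Gf Hf)

namespace Pool.Agent.H98.EX

/-- the exponent -/
noncomputable def te (α s : ℝ) : ℝ := (1 + s) / (1 + α)

/-- the unit of the moments at scale `B`, cells of `k` sites -/
noncomputable def ue (e α s c δ : ℝ) (k B : ℕ) : ℝ :=
  e * (B : ℝ) * (k : ℝ) ^ s * cq c δ ^ (-te α s)

/-- total moment of order `te` -/
noncomputable def QTe (K : PMF ℕ) (ν : Measure ℝ) (e α s c δ : ℝ) (k B : ℕ) : ℝ≥0∞ :=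
  (∑' b : ℕ, ∫⁻ x, BX (w1 K B) B b x ^ te α s ∂(iid ν)) / ENNReal.ofReal (ue e α s c δ k B)

/-- moment of the stretches over several boxes -/
noncomputable def QRe (K : PMF ℕ) (ν : Measure ℝ) (e α s c δ : ℝ) (k B : ℕ) : ℝ≥0∞ :=
  (∑' b : ℕ, (b : ℝ≥0∞) * ∫⁻ x, BX (w1 K B) B b x ^ te α s ∂(iid ν)) /
    ENNReal.ofReal (ue e α s c δ k B)

/-- moment of the stretches in one box -/
noncomputable def QNe (K : PMF ℕ) (ν : Measure ℝ) (e α s c δ : ℝ) (k B : ℕ) : ℝ≥0∞ :=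
  (∫⁻ x, Hf (tb α c δ B) (te α s) (BX (w1 K B) B 0 x) ∂(iid ν)) /
    ENNReal.ofReal (ue e α s c δ k B)

/-- logarithmic moment -/
noncomputable def QGe (K : PMF ℕ) (ν : Measure ℝ) (e α s c δ : ℝ) (k B : ℕ) : ℝ≥0∞ :=
  ENNReal.ofReal e * (∑' b : ℕ, ∫⁻ x, Gf (tb α c δ B) (te α s) (BX (w1 K B) B b x) ∂(iid ν)) /
    ENNReal.ofReal (ue e α s c δ k B)

/-- numerical conditions for one step; `X` bounds `(B / k) ^ s` -/
structure Pre (α s e δ h P ε : ℝ) (M : ℕ) (X : ℝ) : Prop where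
  α0 : 1 / 2 ≤ α
  α1 : α ≤ 1
  s0 : 0 < s
  e0 : 0 < e
  δ0 : 0 < δ
  δ1 : δ ≤ 1
  h0 : 0 < h
  P1 : 1 ≤ P
  ε0 : 0 < ε
  ε1 : ε ≤ 1
  M1 : 1 ≤ M
  t0 : 1 / 2 ≤ te α s
  t1 : te α s ≤ 3 / 4
  hM : h ≤ e * Real.log M
  cδ : 144 * e * P ≤ δ
  c1 : e * (2 + Real.log M + (72 * e * P) ^ te α s * (1 + 1 / s)) ≤ (1 + ε) * h
  c2 : (1 + ε) * h * (2 * P) ≤ 1 / 4
  c3 : 4 * e * P + (4 * e * P) ^ te α s +
    (72 * e ^ 2 * P ^ 2) ^ te α s * (1 + 1 / s) * (M : ℝ) ^ (te α s - 1) ≤ ε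
  c4 : 2 * (e * P) ^ te α s * (4 + 1 / s) * (M : ℝ) ^ (te α s - 1) * X / e ≤ ε
  c5 : 2 * P / M + 4 * e * P ^ 2 ≤ ε
  c6 : 128 * e * P ≤ ε

end Pool.Agent.H98.EX
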