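import Pool.Agent.H98.EX.BDefs

/-!
# The exact constant of the copolymer slope as `α → 1`, lower half: definitions (helper98)

Cells of `k` sites. `pc`, `WB`, `HK`, `OBJ`, `nx`, `Fl` are those of `Pool.Agent.H98.CE`; `RG`, `TS`,
`MM`, `YY`, `sd` those of `Pool.Agent.H98.SLN`. `x` is both an environment and, in the parameters,
`δ ^ (1 / 4)`; the gap is `kl * x`.
-/

set_option autoImplicit false

open MeasureTheory ProbabilityTheory Filter Topology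
open scoped ENNReal
open Pool.Agent.H95 Pool.Agent.H95.Cop
open Pool.Agent.H55.CG (VV Mo)
open Pool.Agent.H98.CE (pc WB HK OBJ nx Fl)
open Pool.Agent.H98.SLN (RG TS MM YY sd)

namespace Pool.Agent.H98.EX

/-! ## The functional of a box -/

/-- the typical exponent on the cells `a, ..., b` -/
noncomputable def cX (k : ℕ) (ϑ : ℝ) (x : ℕ → ℝ) (a b : ℕ) : ℝ := H (yk k ϑ x) a (b + 1)

/-- good pairs of cells -/
def gX (K : PMF ℕ) (k q : ℕ) (ϑ : ℝ) (x : ℕ → ℝ) (p : ℕ × ℕ) : Prop :=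
  cX k ϑ x p.1 p.2 - 3 * ϑ ^ (1 / 4 : ℝ) ≤ YY K k q x p.1 p.2

/-- pairs of cells, at least two and at most `D` cells -/
def PQ (n D : ℕ) : Finset (ℕ × ℕ) :=
  (Finset.range n ×ˢ Finset.range n).filter fun p => p.1 < p.2 ∧ p.2 + 1 ≤ p.1 + D

/-- the constant of the functional -/
noncomputable def cc (r ϑ : ℝ) : ℝ := 2 * (1 - 8 * r) * Real.exp (-(3 * ϑ ^ (1 / 4 : ℝ)))

open Classical in
/-- the sum over the good pairs -/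
noncomputable def WX (K : PMF ℕ) (k q : ℕ) (r ϑ : ℝ) (n D : ℕ) (x : ℕ → ℝ) : ℝ :=
  ∑ p ∈ PQ n D, if gX K k q ϑ x p then cc r ϑ * Real.exp (cX k ϑ x p.1 p.2) else 0

open Classical in
/-- the label of a box -/
noncomputable def lX (K : PMF ℕ) (k q : ℕ) (r ϑ β : ℝ) (n D J : ℕ) (x : ℕ → ℝ) : ℕ :=
  if Real.exp (β * 3) ≤ WX K k q r ϑ n D x ∧ WX K k q r ϑ n D x < Real.exp (β * ((J : ℝ) + 1)) then
    ⌊Real.log (WX K k q r ϑ n D x) / β⌋₊ else 0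

open Classical in
/-- the functional of a box -/
noncomputable def wX (K : PMF ℕ) (k q : ℕ) (r ϑ β : ℝ) (n D J : ℕ) (x : ℕ → ℝ) : ℝ :=
  if Real.exp (β * 3) ≤ WX K k q r ϑ n D x ∧ WX K k q r ϑ n D x < Real.exp (β * ((J : ℝ) + 1)) then
    WX K k q r ϑ n D x else 0

/-- all pairs of cells -/
def QS (n : ℕ) : Finset (ℕ × ℕ) :=
  (Finset.range n ×ˢ Finset.range n).filter fun p => p.1 ≤ p.2

/-- the pairs near `(a, b)` -/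
def NS (R a b : ℕ) : Finset (ℕ × ℕ) := Finset.Icc (a - R) (a + R) ×ˢ Finset.Icc (b - R) (b + R)

/-- sum of the ratios to the pair `(a, b)` -/
noncomputable def RT (F : Finset (ℕ × ℕ)) (y : ℕ → ℝ) (a b : ℕ) : ℝ :=
  ∑ p ∈ F, Real.exp (H y p.1 (p.2 + 1) - H y a (b + 1))

open Classical in
/-- the pairs for the label `j` -/
noncomputable def WS (β ζ ϑ : ℝ) (n R j : ℕ) : Finset (ℕ × ℕ) :=
  (Finset.range n ×ˢ Finset.range n).filter fun p => R ≤ p.1 ∧ p.2 + R < n ∧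
    4 * β * ((j : ℝ) + ζ) / ϑ ≤ (p.2 : ℝ) + 1 - p.1 ∧
    (p.2 : ℝ) + 1 - p.1 ≤ 4 * β * ((j : ℝ) + 1 - ζ) / ϑ

/-- bad environments for the pair `(a, b)` -/
def Bd (K : PMF ℕ) (k q : ℕ) (ϑ β ζ η : ℝ) (n R : ℕ) (x : ℕ → ℝ) (a b : ℕ) : Prop :=
  ¬ gX K k q ϑ x (a, b) ∨ η < RT (QS n \ NS R a b) (yk k ϑ x) a b ∨
  Real.exp (β * ζ / 4) < RT (QS n) (yk k ϑ x) a b ∨
  β * ζ / 4 < |cX k ϑ x a b - ϑ / 4 * ((b : ℝ) + 1 - a)|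

open Classical in
/-- the share of a pair -/
noncomputable def sh (K : PMF ℕ) (k q : ℕ) (ϑ β ζ η γ : ℝ) (n R : ℕ) (x : ℕ → ℝ) (a b : ℕ) : ℝ :=
  if ¬ Bd K k q ϑ β ζ η n R x a b then Real.exp (γ * cX k ϑ x a b) *
    (NL R (yk k ϑ x) a * NR R (yk k ϑ x) b) ^ (γ - 1) else 0

/-- bound of the probability of the bad environments -/
noncomputable def Pb (ϑ β ζ η ε δ τ s : ℝ) (n R D : ℕ) : ℝ :=
  6 * ϑ ^ (1 / 4 : ℝ) +
  η ^ (-(1 / 4) : ℝ) * (2 ^ 17 / ϑ ^ 2 * Real.exp (-(ϑ * R / 64)) +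
    128 * n / ϑ * Real.exp (-(3 * β / 16))) +
  Real.exp (-(β * ζ / 16)) * (2 ^ 16 / ϑ ^ 2 + 128 * n / ϑ * Real.exp (-(3 * β / 16))) +
  2 * Real.exp (-(s * (β * ζ / 4)) + D * (ϑ * (s * (ε + δ) + s ^ 2 / 2) + 2 * τ))

/-- its limit -/
noncomputable def P0 (ϑ η : ℝ) (R : ℕ) : ℝ :=
  6 * ϑ ^ (1 / 4 : ℝ) + η ^ (-(1 / 4) : ℝ) * (2 ^ 17 / ϑ ^ 2 * Real.exp (-(ϑ * R / 64)))

/-- the law of the charges and its tilt -/
structure LM (ν : Measure ℝ) (α ϑ ε τ U : ℝ) (k : ℕ) : Prop where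
  eg : EG ν k ϑ ε τ U
  m1 : k * |∫ z, z ∂(ν.tilted fun z => 1 / (1 + α) / 2 * z)| ≤ ϑ
  m2 : |k * (∫ z, z ^ 2 ∂(ν.tilted fun z => 1 / (1 + α) / 2 * z)) - 4 * ϑ| ≤ τ
  m4 : k * (∫ z, z ^ 4 ∂(ν.tilted fun z => 1 / (1 + α) / 2 * z)) ≤ τ

/-- the conditions on the boxes of `n` cells; `D` is the largest number of cells of a stretch -/
structure DC (K : PMF ℕ) (ν : Measure ℝ) (α c δ r ϑ ε τ β ζ η : ℝ) (k q n R D J : ℕ) : Prop where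
  rx : RX K α c δ r k q
  lm : LM ν α ϑ ε τ 3 k
  kr : 8 ≤ r * k
  r1 : r ≤ 1 / 64
  ϑ0 : 0 < ϑ
  ϑ1 : ϑ ≤ 1 / 2 ^ 12
  ε0 : 0 ≤ ε
  ε1 : ε ≤ 1 / 64
  τ0 : 0 ≤ τ
  τ1 : τ ≤ ϑ / 256
  β0 : 0 < β
  ζ0 : 0 < ζ
  ζ1 : ζ ≤ 1 / 4
  βζ : 8 ≤ β * ζ
  η0 : 0 < η
  η1 : η ≤ 1
  R2 : 2 ≤ R
  Rβ : 2 * (R : ℝ) + 1 ≤ 12 * β / ϑ
  D1 : 4 * β * ((J : ℝ) + 1) / ϑ ≤ D
  D2 : 2 ^ 9 * Real.sqrt δ * D ≤ r
  D3 : D * (τ + Real.sqrt δ) ≤ ϑ / 32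
  Dn : 2 * R + D ≤ n

/-! ## The levels -/

/-- the unit of the logarithms -/
noncomputable def bX (c0 kl x : ℝ) : ℝ := c0 / (2 * kl * x)

/-- the unit of the densities -/
noncomputable def aX (c0 kl x : ℝ) : ℝ := Real.sqrt 2 / (2 * Real.pi) * bX c0 kl x

/-- the constant of the recursion -/
noncomputable def Lm (kl : ℝ) : ℝ := Real.sqrt 2 / (32 * Real.pi * kl ^ 2)

/-- the densities of the first level -/
noncomputable def t0x (c0 e : ℝ) (J : ℕ) (j : ℕ) : ℝ :=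
  if 3 ≤ j ∧ j ≤ J then e * Real.exp (-(c0 * ((j : ℝ) + 1))) else 0

/-- the densities of the level `l` -/
noncomputable def tlx (c0 η e : ℝ) (J ms : ℕ) : ℕ → ℕ → ℝ
  | 0 => t0x c0 e J
  | l + 1 => nx (tlx c0 η e J ms l) (l + 3) ms (e * η) e

/-- the hypotheses on the law of the renewal process and of the charges -/
structure LX (K : PMF ℕ) (ν : Measure ℝ) (α c x r ϑ kl τ U : ℝ) (k q : ℕ) : Prop where
  rx : RX K α c (x ^ 4) r k q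
  lm : LM ν α ϑ (kl * x) τ U k
  kr : 8 ≤ r * k
  τ0 : 0 ≤ τ
  τ1 : τ ≤ x ^ 4

/-- the boxes of the level `l` have the densities `aX * t` -/
def OBx (ϑ r U kl c0 : ℝ) (l J : ℕ) (t : ℕ → ℝ) : Prop :=
  ∃ c : ℕ, ∀ᶠ x in 𝓝[>] (0 : ℝ), ∀ (K : PMF ℕ) (ν : Measure ℝ) (α cK τ : ℝ) (k q : ℕ),
    LX K ν α cK x r ϑ kl τ U k q →
    ∃ n : ℕ, 1 ≤ n ∧ (n : ℝ) ≤ Real.exp (bX c0 kl x * ((l : ℝ) + 1 / 2) / 2) ∧
      OBJ K ν k α (bX c0 kl x) n J (fun j => aX c0 kl x * t j) ((1 / x) ^ c)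
        (Real.exp ((1 / x) ^ c))

end Pool.Agent.H98.EX
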