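import Pool.Agent.H98.EX.WDefs

/-!
# The exact constant of the copolymer slope as `α → 1`: neutral stretches (helper98)

Cells of `k` sites. A neutral stretch has excursions of at most `k` sites; its weight is
`exp (H / 2)` times a sum `PF (wc K k)` over the renewal paths. `ϖ` is the tilted law of the charges.
`PF`, `BX`, `w0` are those of `Pool.Agent.H99.CE`, `RG`, `TS`, `kt`, `VB` those of
`Pool.Agent.H98.SLN`.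
-/

set_option autoImplicit false

open MeasureTheory ProbabilityTheory Filter Topology
open scoped ENNReal
open Pool.Agent.H95 Pool.Agent.H95.Cop
open Pool.Agent.H55.CG (Mo)
open Pool.Agent.H96.Cop (pk)
open Pool.Agent.H99.CE (PF)
open Pool.Agent.H98.SLN (RG TS kt VB)

namespace Pool.Agent.H98.EX

/-- the inter-arrival law on the scale `k`, up to the factors `1 - r` and `1 + r` -/
structure RX (K : PMF ℕ) (α c δ r : ℝ) (k q : ℕ) : Prop where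
  rg : RG K α c δ k q
  r0 : 0 < r
  r1 : r ≤ 1 / 8
  up : ∀ n : ℕ, q ≤ n → kk K n ≤ (1 + r) * c * (n : ℝ) ^ (-(1 + α))
  lo : ∀ n : ℕ, q ≤ n → (1 - r) * c * (n : ℝ) ^ (-(1 + α)) ≤ kk K n
  sv : ∀ L : ℕ, r * k ≤ L → L ≤ k → (1 - r) * TS K k ≤ TS K L
  v1 : c * (k : ℝ) ^ (1 - α) ≤ (1 + r) * (δ * TS K k)
  v2 : (1 - r) * (δ * TS K k) ≤ c * (k : ℝ) ^ (1 - α)

/-- the law of the charges, `h = (3 / 4 + ε) λ` and `k λ ^ 2 ≈ ϑ` -/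
structure EG (ν : Measure ℝ) (k : ℕ) (ϑ ε τ U : ℝ) : Prop where
  prob : IsProbabilityMeasure ν
  exp : ∀ t : ℝ, Integrable (fun z => Real.exp (t * z)) ν
  lo : ∀ u : ℝ, |u| ≤ U → Real.exp (ϑ * (2 * u ^ 2 - 2 * u * (3 / 4 + ε)) - τ) ≤ Mo ν u ^ k
  up : ∀ u : ℝ, |u| ≤ U → Mo ν u ^ k ≤ Real.exp (ϑ * (2 * u ^ 2 - 2 * u * (3 / 4 + ε)) + τ)

/-- the tilted law of the charges -/
structure EP (ϖ : Measure ℝ) (k : ℕ) (ϑ σ τ : ℝ) : Prop where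
  prob : IsProbabilityMeasure ϖ
  exp : ∀ t : ℝ, Integrable (fun z => Real.exp (t * z)) ϖ
  lo : ∀ v : ℝ, |v| ≤ 2 → Real.exp (ϑ * (2 * v ^ 2 - v / 2 + 2 * σ * v) - τ) ≤ Mo ϖ v ^ k
  up : ∀ v : ℝ, |v| ≤ 2 → Mo ϖ v ^ k ≤ Real.exp (ϑ * (2 * v ^ 2 - v / 2 + 2 * σ * v) + τ)

/-- the conditions on the tilted law -/
structure PB (ϖ : Measure ℝ) (k : ℕ) (ϑ σ τ ω : ℝ) : Prop where
  ep : EP ϖ k ϑ σ τ
  k1 : 1 ≤ k
  ϑ0 : 0 < ϑ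
  ϑ1 : ϑ ≤ 1 / 64
  ω0 : 0 < ω
  ω1 : ω ≤ 1
  σω : |σ| ≤ ω / 64
  ϑω : ϑ ≤ ω / 64
  τ0 : 0 ≤ τ
  τω : τ ≤ ω ^ 2 * ϑ / 2 ^ 10

/-- all conditions of the neutral stretches -/
structure PA (K : PMF ℕ) (ϖ : Measure ℝ) (α c δ r ϑ σ τ ω : ℝ) (k q : ℕ) : Prop where
  rx : RX K α c δ r k q
  pb : PB ϖ k ϑ σ τ ω
  rϑ : r ≤ ϑ / 8
  δϑ : δ ≤ ϑ / 16
  kϑ : 16 ≤ ϑ * k

/-- neutral weights, without their linear part -/
noncomputable def wc (K : PMF ℕ) (k n : ℕ) (x : ℕ → ℝ) : ℝ≥0∞ :=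
  if n ≤ k then pk K n * ENNReal.ofReal (Real.cosh (H x 0 n / 2)) else 0

/-- bound of their mean -/
noncomputable def wk (K : PMF ℕ) (k : ℕ) (ϑ : ℝ) (n : ℕ) (_ : ℕ → ℝ) : ℝ≥0∞ :=
  ENNReal.ofReal (kt K k (ϑ / k) n)

/-- boundary weights -/
noncomputable def be (x : ℕ → ℝ) (a b : ℕ) : ℝ≥0∞ := ENNReal.ofReal (Real.exp (-(H x a b / 2)))

/-- no boundary weights -/
def bo (_ : ℕ → ℝ) (_ _ : ℕ) : ℝ≥0∞ := 1

/-- paths from `0` whose first renewal point at or after `p` is `i` -/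
noncomputable def GP (w : ℕ → (ℕ → ℝ) → ℝ≥0∞) (p i : ℕ) (x : ℕ → ℝ) : ℝ≥0∞ :=
  ∑ t ∈ Finset.range p, PF w t x * w (i - t) (shift t x)

/-- paths from `0` to `s` without renewal point in `1, ..., g` -/
noncomputable def GQ (w : ℕ → (ℕ → ℝ) → ℝ≥0∞) (g s : ℕ) (x : ℕ → ℝ) : ℝ≥0∞ :=
  ∑ t ∈ Finset.Ioc g s, w t x * PF w (s - t) (shift t x)

/-- stretches over the cells `0, ..., d` -/
noncomputable def NC (w : ℕ → (ℕ → ℝ) → ℝ≥0∞) (b : (ℕ → ℝ) → ℕ → ℕ → ℝ≥0∞) (k d : ℕ)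
    (x : ℕ → ℝ) : ℝ≥0∞ :=
  ∑ e ∈ Finset.range k, ∑ r ∈ Finset.range k, (if e ≤ d * k + r then
    b x 0 e * PF w (d * k + r - e) (shift e x) * b x (d * k + r) ((d + 1) * k) else 0)

/-- their first parts, up to the first renewal point `i` at or after `R * k` -/
noncomputable def AP (w : ℕ → (ℕ → ℝ) → ℝ≥0∞) (b : (ℕ → ℝ) → ℕ → ℕ → ℝ≥0∞) (k R i : ℕ)
    (x : ℕ → ℝ) : ℝ≥0∞ :=
  ∑ e ∈ Finset.range k, b x 0 e * GP w (R * k - e) (i - e) (shift e x)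

/-- their last parts, without renewal point in `1, ..., g`, up to the site `L` -/
noncomputable def BQ (w : ℕ → (ℕ → ℝ) → ℝ≥0∞) (b : (ℕ → ℝ) → ℕ → ℕ → ℝ≥0∞) (k g L : ℕ)
    (x : ℕ → ℝ) : ℝ≥0∞ :=
  ∑ r ∈ Finset.Ico (L - k) L, GQ w g r x * b x r L

/-- the exponent of the sites `a, ..., b - 1` -/
noncomputable def Sy (k : ℕ) (ϑ : ℝ) (x : ℕ → ℝ) (a b : ℕ) : ℝ :=
  H x a b / 2 + ((b : ℝ) - a) * ϑ / (2 * k)

/-- bound of the mean of `PF (wc K k) s` -/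
noncomputable def MH (K : PMF ℕ) (k : ℕ) (ϑ τ : ℝ) (s : ℕ) : ℝ :=
  Real.exp ((ϑ / 2 + τ) * s / k) * uu (kt K k (ϑ / k)) s

/-- the square mean is at most `exp c` times the mean -/
def LL (P : Measure (ℕ → ℝ)) (c : ℝ) (X : (ℕ → ℝ) → ℝ≥0∞) : Prop :=
  (∫⁻ x, X x ^ (2 : ℝ) ∂P) ^ (1 / 2 : ℝ) ≤ ENNReal.ofReal (Real.exp c) * ∫⁻ x, X x ∂P

/-- the unit of the weights of the neutral stretches -/
noncomputable def VH (K : PMF ℕ) (k : ℕ) (ϑ : ℝ) : ℝ := (1 + 8 * ϑ) * (k : ℝ) ^ 2 / TS K k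

/-- bound of the mean of the stretches over `d + 1` cells -/
noncomputable def MD (K : PMF ℕ) (k : ℕ) (ϑ τ δ : ℝ) (d : ℕ) : ℝ :=
  Real.exp (((d : ℝ) + 1) * (ϑ / 2 + τ + 64 * δ)) * VH K k ϑ

/-- drift of the exponent per cell -/
noncomputable def ad (ϑ ω : ℝ) : ℝ := ϑ / 4 * (1 + ω)

/-- the constant of the end parts -/
noncomputable def ce (ϑ τ : ℝ) (R : ℕ) : ℝ := ϑ + (ϑ ^ 2 + 2 * τ) * ((R : ℝ) + 1)

end Pool.Agent.H98.EX
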