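import Pool.Agent.H98.EX.KDefs

/-!
# The exact constant of the copolymer slope as `α → 1`: the random walk of the cells (helper98)

`y` is the sequence of the increments of a random walk, `H y 0 n` is the walk. `ρ` is the law of an
increment, `ρ.tilted fun t => θ * t` the tilted law.
-/

set_option autoImplicit false

open MeasureTheory ProbabilityTheory Filter Topology
open Pool.Agent.H95 Pool.Agent.H95.Cop
open Pool.Agent.H55.CG (Mo)

namespace Pool.Agent.H98.EX

/-- upward exponential sums -/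
noncomputable def VL (n : ℕ) (y : ℕ → ℝ) : ℝ := ∑ i ∈ Finset.range n, Real.exp (H y 0 (i + 1))

/-- downward exponential sums -/
noncomputable def VR (n : ℕ) (y : ℕ → ℝ) : ℝ := ∑ i ∈ Finset.range n, Real.exp (-H y 0 (i + 1))

/-- negative moments of the one-sided sums -/
noncomputable def hh (ϱ : Measure ℝ) (n : ℕ) (q : ℝ) : ℝ :=
  ∫ y : ℕ → ℝ, (1 + VR n y) ^ (-q) ∂(iid ϱ)

/-- negative moments of the two-sided sums: `a` tilted increments inside, `b` increments outside -/
noncomputable def QQ (ρ : Measure ℝ) (θ p : ℝ) (a b : ℕ) : ℝ :=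
  ∫ z : ℕ → ℝ, (∫ y : ℕ → ℝ, (1 + VR a z + VL b y) ^ (-p) ∂(iid ρ)) ∂(iid (ρ.tilted fun t => θ * t))

/-- reversal of the first `n` coordinates -/
def rv (n : ℕ) (y : ℕ → ℝ) : ℕ → ℝ := fun i => if i < n then y (n - 1 - i) else y i

/-- the increments: cells of `k` sites -/
noncomputable def yk (k : ℕ) (ϑ : ℝ) (x : ℕ → ℝ) : ℕ → ℝ :=
  fun i => H x (i * k) ((i + 1) * k) / 2 + ϑ / 2

/-- the law of an increment -/
noncomputable def rl (ν : Measure ℝ) (k : ℕ) (ϑ : ℝ) : Measure ℝ :=
  (iid ν).map (fun x => yk k ϑ x 0)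

end Pool.Agent.H98.EX
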